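import Pool.Agent.Helper42.TG.DefsM
import Pool.Agent.Helper68.TG.GoalsM
import Pool.Agent.Helper92.TG.GoalsX

/-!
# Project TGX (MP_a41896_nt): all products of elliptic curves, no hypothesis; interface

`WL F W` is the curve over `F` (`W.map (algebraMap k F)`, `W` over `k`).  HOW TO USE TOWERS: if `[Algebra k F] [Algebra k Ω] [Algebra Ω F] [IsScalarTower k Ω F]`
are variables then `WL F W` and `WL F (WL Ω W)` are equal, but only after replacing the instance: `obtain rfl : ‹Algebra k F› = ((algebraMap Ω F).comp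
(algebraMap k Ω)).toAlgebra := Algebra.algebra_ext _ _ (fun r => ..)` (`IsScalarTower.algebraMap_apply`), then the two are definitionally equal.

CHAIN.  `S_C1` (rigidity) `S_C2` (descent to a number field) `S_C3` (homomorphisms from formulas) `S_C4` (formula at all points), `S_EXW`, `S_ENBC` (rings of
endomorphisms), `S_D1`, `S_D2` (the derivatives are in one quadratic field) give `S_P1`, `S_P2`, `S_FI`, `S_TRN2`; with `S_BC`, `S_ISO`, `S_TOW`, `S_NIBC`,
`S_REFL` and `S_TGW` they give `S_TGX`.
-/

set_option autoImplicit false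

open Polynomial

namespace Pool.Agent.Helper60.TGX

open WeierstrassCurve Height
open Pool.Agent.Helper29.BL Pool.Agent.Helper42.SG
open Pool.Agent.Helper60.T3 (WL zd IP)
open Pool.Agent.Helper42.TN (NonIsog)
open Pool.Agent.Helper42.TG (Endo RAct)
open Pool.Agent.Helper92.TG (Dv)
open Pool.Agent.Helper68.TG.M (PairM)
open Pool.Agent.Helper19.TN (MAINW)

noncomputable section

/-! ## Definitions -/

/-- up to an integer factor `R` contains all endomorphisms over all fields -/
def RAllW {K : Type} [Field K] (W : Affine K) (R : Subring K)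
    (ac : ∀ (F : Type) [Field F] [DecidableEq F] [Algebra K F],
      R →+* AddMonoid.End (WL F W).Point) : Prop :=
  ∀ (Ω : Type) [Field Ω] [Algebra K Ω] [IsAlgClosed Ω] (F : Type) [Field F] [DecidableEq F]
    [Algebra K F] [Algebra Ω F] [IsScalarTower K Ω F] (x y : F)
    (h : (WL F W).Nonsingular x y), Transcendental Ω x →
    ∀ (x' y' : F) (h' : (WL F W).Nonsingular x' y'),
    x' ∈ IntermediateField.adjoin Ω ({x, y} : Set F) →
    y' ∈ IntermediateField.adjoin Ω ({x, y} : Set F) →
    ∃ (m : ℕ) (ρ : R) (c : (WL F W).Point), m ≠ 0 ∧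
      m • (Affine.Point.some x' y' h' : (WL F W).Point) =
        ac F ρ (Affine.Point.some x y h : (WL F W).Point) + c ∧
      IP (Set.range (algebraMap Ω F)) c

/-- a ring of endomorphisms over `k` which is large up to integer factors -/
def HasR {k : Type} [Field k] (W : Affine k) : Prop :=
  ∃ (R : Subring k) (ac : ∀ (F : Type) [Field F] [DecidableEq F] [Algebra k F],
    R →+* AddMonoid.End (WL F W).Point), RAct W R ac ∧ RAllW W R ac

/-- a homomorphism of the groups of `k`-points with `x(φ P) = A(x(P)) / B(x(P))` -/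
def HasIso {k : Type} [Field k] [DecidableEq k] (W W' : Affine k) : Prop :=
  ∃ (φ : W.Point →+ W'.Point) (A B : k[X]), PairM A B ∧ ∀ P : W.Point, P ≠ 0 →
    eval (xc P) B ≠ 0 → φ P ≠ 0 ∧ eval (xc P) B * xc (φ P) = eval (xc P) A

/-- `R` is the value of the formula `(A/B, ψ C/E)` at `P` -/
def Val {k F : Type} [Field k] [Field F] [Algebra k F] {W W' : Affine k} (A B C E : k[X])
    (P : (WL F W).Point) (R : (WL F W').Point) : Prop :=
  R ≠ 0 ∧ xc R * aeval (xc P) B = aeval (xc P) A ∧ ps R * aeval (xc P) E = aeval (xc P) C * ps P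

/-- the formula `(A/B, ψ C/E)` gives a not constant additive map on the generic points of `W` -/
structure AddF {k : Type} [Field k] (W W' : Affine k) (A B C E : k[X]) : Prop where
  cop : IsCoprime A B
  hB : B ≠ 0
  hE : E ≠ 0
  nc : derivative A * B - A * derivative B ≠ 0
  ex : ∀ (F : Type) [Field F] [DecidableEq F] [Algebra k F] (P : (WL F W).Point),
    Transcendental k (xc P) → ∃ R : (WL F W').Point, Val A B C E P R
  add : ∀ (F : Type) [Field F] [DecidableEq F] [Algebra k F] (P Q : (WL F W).Point)
    (R R' R'' : (WL F W').Point), AlgebraicIndependent k ![xc P, xc Q] → Val A B C E P R →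
    Val A B C E Q R' → Val A B C E (P + Q) R'' → R'' = R + R'

/-- natural homomorphisms of the groups of points over all extension fields -/
structure Homo {k : Type} [Field k] (W W' : Affine k) : Type 1 where
  /-- the homomorphism of the groups of `F`-points -/
  f : ∀ (F : Type) [Field F] [DecidableEq F] [Algebra k F], (WL F W).Point →+ (WL F W').Point
  nat : ∀ (F F' : Type) [Field F] [DecidableEq F] [Algebra k F] [Field F'] [DecidableEq F']
    [Algebra k F'] (j : F →ₐ[k] F') (P : (WL F W).Point),
    f F' (Affine.Point.map (W' := W) j P) = Affine.Point.map (W' := W') j (f F P)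

/-! ## B, A: base change, isogenies (captain helper3) -/

/-- **base change** -/
def S_BC : Prop :=
  ∀ (K K' : Type) [Field K] [NumberField K] [DecidableEq K] [Field K'] [NumberField K']
    [DecidableEq K'] [Algebra K K'] (σ : Type) [Fintype σ] [DecidableEq σ] (W : σ → Affine K),
    (∀ i, (W i).IsElliptic) → MAINW K' σ (fun i => WL K' (W i)) → MAINW K σ W

/-- **isogenies** -/
def S_ISO : Prop :=
  ∀ (K : Type) [Field K] [NumberField K] [DecidableEq K] (σ : Type) [Fintype σ] [DecidableEq σ]
    (W W' : σ → Affine K), (∀ i, (W i).IsElliptic) → (∀ i, (W' i).IsElliptic) →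
    (∀ i, HasIso (W i) (W' i)) → MAINW K σ W' → MAINW K σ W

/-- **towers**: a number field which contains finitely many number fields over `K` -/
def S_TOW : Prop :=
  ∀ (K : Type) [Field K] [NumberField K] (J : Type) [Fintype J] (k : J → Type)
    [∀ j, Field (k j)] [∀ j, NumberField (k j)] [∀ j, Algebra K (k j)],
    ∃ (F : Type) (_ : Field F) (_ : NumberField F) (_ : Algebra K F)
      (_ : ∀ j, Algebra (k j) F), ∀ j, IsScalarTower K (k j) F

/-- `NonIsog` under base change -/
def S_NIBC : Prop :=
  ∀ (K K' : Type) [Field K] [Field K'] [Algebra K K'] (W W' : Affine K), NonIsog W W' →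
    NonIsog (WL K' W) (WL K' W')

/-- a curve is isogenous to itself -/
def S_REFL : Prop :=
  ∀ (K : Type) [Field K] [CharZero K] (W : Affine K), W.IsElliptic → ¬ NonIsog W W

/-! ## C1, C2: rigidity and descent (captain helper19) -/

/-- **rigidity**: a point of `W'` over the field `k(P)`, `P` a generic point of `W`, is the value of an additive formula plus a constant -/
def S_C1 : Prop :=
  ∀ (k : Type) [Field k] [CharZero k] [IsAlgClosed k] (W W' : Affine k), W.IsElliptic →
    W'.IsElliptic → ∀ (F : Type) [Field F] [DecidableEq F] [Algebra k F] (P : (WL F W).Point)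
    (S : (WL F W').Point), Transcendental k (xc P) →
    IP (IntermediateField.adjoin k ({xc P, ps P} : Set F) : Set F) S → Transcendental k (xc S) →
    ∃ (A B C E : k[X]) (R c : (WL F W').Point), AddF W W' A B C E ∧ Val A B C E P R ∧
      IP (Set.range (algebraMap k F)) c ∧ S = R + c

/-- **descent**: an additive formula over `Ω ⊇ K` is defined over a finite extension of `K` -/
def S_C2 : Prop :=
  ∀ (K Ω : Type) [Field K] [NumberField K] [Field Ω] [IsAlgClosed Ω] [Algebra K Ω]
    (W W' : Affine K), W.IsElliptic → W'.IsElliptic → ∀ A B C E : Polynomial Ω,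
    AddF (WL Ω W) (WL Ω W') A B C E →
    ∃ (K₂ : Type) (_ : Field K₂) (_ : NumberField K₂) (_ : Algebra K K₂) (_ : Algebra K₂ Ω)
      (_ : IsScalarTower K K₂ Ω) (A₂ B₂ C₂ E₂ : K₂[X]),
      AddF (WL K₂ W) (WL K₂ W') A₂ B₂ C₂ E₂ ∧
      A * B₂.map (algebraMap K₂ Ω) = A₂.map (algebraMap K₂ Ω) * B ∧
      C * E₂.map (algebraMap K₂ Ω) = C₂.map (algebraMap K₂ Ω) * E

/-! ## C3, C4 and rings of endomorphisms (captain helper92) -/

/-- **homomorphisms from formulas** -/
def S_C3 : Prop :=
  ∀ (k : Type) [Field k] [CharZero k] (W W' : Affine k), W.IsElliptic → W'.IsElliptic →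
    ∀ A B C E : k[X], AddF W W' A B C E → ∃ f : Homo W W', ∀ (F : Type) [Field F]
      [DecidableEq F] [Algebra k F] (P : (WL F W).Point), Transcendental k (xc P) →
      Val A B C E P (f.f F P)

/-- **the formula at all points** -/
def S_C4 : Prop :=
  ∀ (k : Type) [Field k] [CharZero k] (W W' : Affine k), W.IsElliptic → W'.IsElliptic →
    ∀ A B C E : k[X], AddF W W' A B C E → ∀ f : Homo W W', (∀ (F : Type) [Field F]
      [DecidableEq F] [Algebra k F] (P : (WL F W).Point), Transcendental k (xc P) →
      Val A B C E P (f.f F P)) → B.natDegree < A.natDegree ∧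
    ∀ (F : Type) [Field F] [DecidableEq F] [Algebra k F] (P : (WL F W).Point), P ≠ 0 →
      aeval (xc P) B ≠ 0 → f.f F P ≠ 0 ∧ xc (f.f F P) * aeval (xc P) B = aeval (xc P) A

/-- **the ring of all endomorphisms over `k`** (the assembly of EXR), every endomorphism has a derivative -/
def S_EXW : Prop :=
  ∀ (k : Type) [Field k] [CharZero k] (W : Affine k), W.IsElliptic →
    (∀ ρ : Endo W, ∃ r : k, Dv ρ r) ∧
    ∃ (R : Subring k) (ac : ∀ (F : Type) [Field F] [DecidableEq F] [Algebra k F],
      R →+* AddMonoid.End (WL F W).Point), RAct W R ac ∧ ∀ (ρ : Endo W) (r : k), Dv ρ r → r ∈ R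

/-- **base change of endomorphisms** -/
def S_ENBC : Prop :=
  ∀ (k k₁ : Type) [Field k] [Field k₁] [Algebra k k₁] (W : Affine k) (ρ : Endo W) (r : k),
    Dv ρ r → ∃ ρ₁ : Endo (WL k₁ W), Dv ρ₁ (algebraMap k k₁ r)

/-! ## D: the derivatives (captain helper11) -/

/-- **quadratic field** -/
def S_D1 : Prop :=
  ∀ (k : Type) [Field k] [NumberField k] (W : Affine k), W.IsElliptic → ∀ (ρ₁ ρ₂ : Endo W)
    (r₁ r₂ : k), Dv ρ₁ r₁ → Dv ρ₂ r₂ → r₁ ∉ Set.range (algebraMap ℚ k) →
    ∃ (m : ℕ) (p q : ℤ), m ≠ 0 ∧ (m : k) * r₂ = p + q * r₁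

/-- **a finite extension with all derivatives**, up to integer factors -/
def S_D2 : Prop :=
  ∀ (K : Type) [Field K] [NumberField K] (W : Affine K), W.IsElliptic →
    ∃ (K' : Type) (_ : Field K') (_ : NumberField K') (_ : Algebra K K'),
      ∀ (k : Type) [Field k] [NumberField k] [Algebra K k] [Algebra K' k] [IsScalarTower K K' k]
        (ρ : Endo (WL k W)) (r : k), Dv ρ r → ∃ (m : ℕ) (r' : K') (ρ' : Endo (WL K' W)),
        m ≠ 0 ∧ Dv ρ' r' ∧ (m : k) * r = algebraMap K' k r'

/-! ## P1, P2, FI, TRN2 (helper60) -/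

def S_P1 : Prop :=
  ∀ (K : Type) [Field K] [NumberField K] (W : Affine K), W.IsElliptic →
    ∃ (K' : Type) (_ : Field K') (_ : NumberField K') (_ : Algebra K K'),
      ∀ (k : Type) [Field k] [NumberField k] [Algebra K k] [Algebra K' k] [IsScalarTower K K' k],
        HasR (WL k W)

def S_P2 : Prop :=
  ∀ (K : Type) [Field K] [NumberField K] (W W' : Affine K), W.IsElliptic → W'.IsElliptic →
    ¬ NonIsog W W' → ∃ (K' : Type) (_ : Field K') (_ : NumberField K') (_ : Algebra K K'),
      ∀ (k : Type) [Field k] [NumberField k] [Algebra K k] [Algebra K' k] [IsScalarTower K K' k],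
        ∃ A B C E : k[X], AddF (WL k W) (WL k W') A B C E

def S_FI : Prop :=
  ∀ (k : Type) [Field k] [CharZero k] [DecidableEq k] (W W' : Affine k), W.IsElliptic →
    W'.IsElliptic → ∀ A B C E : k[X], AddF W W' A B C E → HasIso W W'

def S_TRN2 : Prop :=
  ∀ (k : Type) [Field k] [CharZero k] (W W' W'' : Affine k), W.IsElliptic → W'.IsElliptic →
    W''.IsElliptic → ∀ A B C E A' B' C' E' : k[X], AddF W W' A B C E →
    AddF W' W'' A' B' C' E' → ¬ NonIsog W W''

/-! ## The end theorems (helper60) -/

/-- the end theorem from rings which are large up to integer factors -/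
def S_TGW : Prop :=
  ∀ (K : Type) [Field K] [NumberField K] [DecidableEq K] (ι : Type) [DecidableEq ι]
    (E : ι → Affine K), (∀ c, (E c).IsElliptic) →
    (∀ c c', c ≠ c' → NonIsog (E c) (E c')) → (∀ c, HasR (E c)) →
    ∀ (σ : Type) [Fintype σ] [DecidableEq σ] (cl : σ → ι), MAINW K σ (fun i => E (cl i))

/-- **TGX**: all centres of codimension at least two in all products of elliptic curves -/
def S_TGX : Prop :=
  ∀ (K : Type) [Field K] [NumberField K] [DecidableEq K] (σ : Type) [Fintype σ] [DecidableEq σ]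
    (W : σ → Affine K), (∀ i, (W i).IsElliptic) → MAINW K σ W

end

end Pool.Agent.Helper60.TGX
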