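import Pool.Agent.Helper60.TGX.TGW

/-!
# Project TGX (MP_a41896_nt): S_TGX (assembly)
-/

set_option autoImplicit false

open Polynomial

namespace Pool.Agent.Helper60.TGX

open WeierstrassCurve Height
open Pool.Agent.Helper29.BL Pool.Agent.Helper42.SG
open Pool.Agent.Helper60.T3 (WL zd IP)
open Pool.Agent.Helper42.TN (NonIsog)
open Pool.Agent.Helper19.TN (MAINW)

noncomputable section

/-- representatives of the maximal classes of a finite preorder -/
theorem tops {σ : Type} [Finite σ] (r : σ → σ → Prop) (hr : ∀ i, r i i)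
    (ht : ∀ i j k, r i j → r j k → r i k) :
    ∃ top : σ → σ, (∀ i, r i (top i)) ∧ ∀ i k, top i ≠ top k → ¬ r (top i) (top k) := by
  classical
  let _ : Preorder σ := { le := r, le_refl := hr, le_trans := ht }
  have hmax : ∀ i : σ, ∃ m, r i m ∧ ∀ k, r m k → r k m := by
    intro i
    obtain ⟨m, h1, h2⟩ := (Set.toFinite (Set.univ : Set σ)).exists_le_maximal (Set.mem_univ i)
    exact ⟨m, h1, fun k hk => h2.2 (Set.mem_univ k) hk⟩
  choose m hm1 hm2 using hmax
  set C : σ → Set σ := fun i => {k | r (m i) k} with hC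
  have hne : ∀ i, (C i).Nonempty := fun i => ⟨m i, hr (m i)⟩
  rcases isEmpty_or_nonempty σ with hemp | hnon
  · exact ⟨fun i => (hemp.false i).elim, fun i => (hemp.false i).elim,
      fun i => (hemp.false i).elim⟩
  have hf : ∃ f : Set σ → σ, ∀ S : Set σ, S.Nonempty → f S ∈ S :=
    ⟨fun S => if h : S.Nonempty then h.some else Classical.arbitrary σ, fun S hS => by
      show (if h : S.Nonempty then h.some else Classical.arbitrary σ) ∈ S
      rw [dif_pos hS]
      exact hS.some_mem⟩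
  obtain ⟨f, hf⟩ := hf
  refine ⟨fun i => f (C i), fun i => ht _ _ _ (hm1 i) (hf _ (hne i)), fun i k hik hrik => hik ?_⟩
  have h1 : r (m i) (f (C i)) := hf _ (hne i)
  have h2 : r (m k) (f (C k)) := hf _ (hne k)
  have h3 : r (m i) (m k) := ht _ _ _ (ht _ _ _ h1 hrik) (hm2 k _ h2)
  have h4 : r (m k) (m i) := hm2 i _ h3
  have h5 : C i = C k := by
    ext x
    exact ⟨fun h => ht _ _ _ h4 h, fun h => ht _ _ _ h3 h⟩
  exact congrArg f h5

/-- a requirement for a field over `K` -/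
def Req {K : Type} [Field K] {σ : Type} (W : σ → Affine K) (j : (σ × σ) ⊕ σ) (k : Type)
    [Field k] [Algebra K k] : Prop :=
  match j with
  | Sum.inl p => ¬ NonIsog (W p.1) (W p.2) →
      ∃ A B C E : k[X], AddF (WL k (W p.1)) (WL k (W p.2)) A B C E
  | Sum.inr i => HasR (WL k (W i))

/-- **S_TGX** -/
theorem tgx (hTGW : S_TGW) (hBC : S_BC) (hISO : S_ISO) (hTOW : S_TOW) (hNIBC : S_NIBC)
    (hREFL : S_REFL) (hP1 : S_P1) (hP2 : S_P2) (hFI : S_FI) (hTRN : S_TRN2) : S_TGX := by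
  classical
  intro K _ _ _ σ _ _ W hW
  have hj : ∀ j : (σ × σ) ⊕ σ, ∃ (K' : Type) (_ : Field K') (_ : NumberField K')
      (_ : Algebra K K'), ∀ (k : Type) [Field k] [NumberField k] [Algebra K k] [Algebra K' k]
      [IsScalarTower K K' k], Req W j k := by
    rintro (p | i)
    · by_cases hp : NonIsog (W p.1) (W p.2)
      · exact ⟨K, inferInstance, inferInstance, Algebra.id K, fun k _ _ _ _ _ h => absurd hp h⟩
      · obtain ⟨K', i1, i2, i3, h⟩ := hP2 K (W p.1) (W p.2) (hW _) (hW _) hp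
        exact ⟨K', i1, i2, i3, fun k _ _ _ _ _ _ => h k⟩
    · obtain ⟨K', i1, i2, i3, h⟩ := hP1 K (W i) (hW _)
      exact ⟨K', i1, i2, i3, fun k _ _ _ _ _ => h k⟩
  choose K' i1 i2 i3 hreq using hj
  obtain ⟨F, j1, j2, j3, j4, j5⟩ := hTOW K ((σ × σ) ⊕ σ) K'
  have hQ : ∀ j, Req W j F := fun j => hreq j F
  have hadd : ∀ i k, ¬ NonIsog (W i) (W k) →
      ∃ A B C E : F[X], AddF (WL F (W i)) (WL F (W k)) A B C E := fun i k h =>
    hQ (Sum.inl (i, k)) h
  have hR : ∀ i, HasR (WL F (W i)) := fun i => hQ (Sum.inr i)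
  have hWF : ∀ i, (WL F (W i)).IsElliptic := fun i => by
    have := hW i
    infer_instance
  obtain ⟨top, ht1, ht2⟩ := tops (fun i k => ¬ NonIsog (W i) (W k)) (fun i => hREFL K (W i) (hW i))
    (fun i j k hij hjk hik => by
      obtain ⟨A, B, C, E, h1⟩ := hadd i j hij
      obtain ⟨A', B', C', E', h2⟩ := hadd j k hjk
      exact hTRN F (WL F (W i)) (WL F (W j)) (WL F (W k)) (hWF i) (hWF j) (hWF k) A B C E A' B' C'
        E' h1 h2 (hNIBC K F (W i) (W k) hik))
  have h1 : MAINW F σ (fun i => WL F (W (top i))) :=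
    hTGW F {c // ∃ i, top i = c} (fun c => WL F (W c.1)) (fun c => hWF c.1)
      (by
        rintro ⟨c, i, rfl⟩ ⟨c', k, rfl⟩ hne
        have h2 := ht2 i k fun h => hne (Subtype.ext h)
        exact hNIBC K F _ _ (not_not.1 h2))
      (fun c => hR c.1) σ (fun i => ⟨top i, i, rfl⟩)
  refine hBC K F σ W hW (hISO F σ (fun i => WL F (W i)) (fun i => WL F (W (top i)))
    (fun i => hWF i) (fun i => hWF _) (fun i => ?_) h1)
  obtain ⟨A, B, C, E, h⟩ := hadd i (top i) (ht1 i)
  exact hFI F _ _ (hWF _) (hWF _) A B C E h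

end

end Pool.Agent.Helper60.TGX
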