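import Pool.Agent.Helper60.TG.Main

/-!
# Project TGX (MP_a41896_nt): the claim with rings which are large up to integer factors
-/

set_option autoImplicit false

open MvPolynomial

namespace Pool.Agent.Helper60.TGX

open WeierstrassCurve
open Pool.Agent.Helper29.BL Pool.Agent.Helper92.Ru Pool.Agent.Helper42.SG
open Pool.Agent.Helper60.T3 (WL IP zd)
open Pool.Agent.Helper42.TN (NonIsog NoCM)
open Pool.Agent.Helper42.TG (cmbR TFamR)
open Pool.Agent.Helper92.TN (acl ACLA)
open Pool.Agent.Helper60.TG (DALG STEPN MAXT COUNT ZCMBR CMBCR alg_mono cast_nat cast_zero')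
open Pool.Agent.Helper60.TG (cst)
open Pool.Agent.Helper32.TG.TRL (ps_sq SS)
open Pool.Agent.Helper62.TG.STEPN (core closed GG GG_le)

noncomputable section

/-- up to an integer factor the rational points of `W` over `F(v)` are `φ v + c` -/
def EndLW {K L : Type} [Field K] [Field L] [DecidableEq L] [Algebra K L] {R : Type} [CommRing R]
    (W : Affine K) (ac : R →+* AddMonoid.End (WL L W).Point) : Prop :=
  ∀ F : IntermediateField K L, IsAlgClosed F → ∀ v : (WL L W).Point, v ≠ 0 →
    Transcendental F (xc v) → ∀ S : (WL L W).Point,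
    IP (IntermediateField.adjoin F ({xc v, ps v} : Set L) : Set L) S →
    ∃ (m : ℕ) (φ : R) (c : (WL L W).Point), m ≠ 0 ∧ m • S = ac φ v + c ∧ IP (F : Set L) c

/-- STEPSR with `EndLW` -/
def STEPSRW : Prop :=
  ∀ (K L : Type) [Field K] [CharZero K] [Field L] [IsAlgClosed L] [DecidableEq L] [Algebra K L]
    (W : Affine K) [W.IsElliptic] (R : Type) [CommRing R]
    (ac : R →+* AddMonoid.End (WL L W).Point) (d : R →+* K), EndLW W ac →
    (∀ ρ (D : Derivation K L L) (P : (WL L W).Point),
      zd D (ac ρ P) = algebraMap K L (d ρ) * zd D P) →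
    ∀ (F : IntermediateField K L) (D : Derivation K L L),
    (∀ z : L, IsAlgebraic F z → z ∈ F) → (∀ z ∈ F, D z ∈ F) → ∀ v P : (WL L W).Point, v ≠ 0 →
    Transcendental F (xc v) → zd D v ∈ F → P ≠ 0 → zd D P ∈ F →
    IsAlgebraic (IntermediateField.adjoin K ((F : Set L) ∪ {xc v})) (xc P) →
    ∃ (N : ℕ) (φ : R) (Q : (WL L W).Point), N ≠ 0 ∧ IP (F : Set L) Q ∧
      zd D Q = N * zd D P - algebraMap K L (d φ) * zd D v

/-- TRLR with `EndLW` -/
def TRLRW : Prop :=
  ∀ (K L : Type) [Field K] [CharZero K] [Field L] [IsAlgClosed L] [DecidableEq L] [Algebra K L]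
    (ι : Type) [DecidableEq ι] (E : ι → Affine K), (∀ c, (E c).IsElliptic) →
    (∀ c c', c ≠ c' → NonIsog (E c) (E c')) →
    ∀ (R : ι → Type) [∀ c, CommRing (R c)] (ac : ∀ c, R c →+* AddMonoid.End (WL L (E c)).Point)
      (d : ∀ c, R c →+* K),
    (∀ c ρ (D : Derivation K L L) (P : (WL L (E c)).Point),
        zd D (ac c ρ P) = algebraMap K L (d c ρ) * zd D P) →
    ∀ (τ : Type) [Fintype τ] [DecidableEq τ]
    (cl : τ → ι) (v : ∀ j, (WL L (E (cl j))).Point) (C : IntermediateField K L)
    (D : Derivation K L L), (∀ z : L, IsAlgebraic C z → z ∈ C) → (∀ z ∈ C, D z = 0) →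
    (∀ j, v j ≠ 0 ∧ ps (v j) ≠ 0) → (∀ j, zd D (v j) ∈ C) →
    ∀ (c : ι) (P : (WL L (E c)).Point), (∀ j, cl j = c → EndLW (E c) (ac c)) → P ≠ 0 →
    zd D P ∈ C →
    IsAlgebraic (IntermediateField.adjoin K ((C : Set L) ∪ Set.range fun j => xc (v j))) (xc P) →
    ∃ (N : ℕ) (n : τ → R c), N ≠ 0 ∧ (∀ j, cl j ≠ c → n j = 0) ∧
      (N : L) * zd D P = ∑ j, algebraMap K L (d c (n j)) * zd D (v j)

/-- **the claim** with `EndLW` -/
def S_CLAIMW : Prop :=
  ∀ (K κ L : Type) [Field K] [CharZero K] [Field κ] [IsAlgClosed κ] [Field L] [IsAlgClosed L]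
    [DecidableEq L] [Algebra K κ] [Algebra κ L] [Algebra K L] [IsScalarTower K κ L]
    (ι : Type) [DecidableEq ι] (E : ι → Affine K), (∀ c, (E c).IsElliptic) →
    (∀ c c', c ≠ c' → NonIsog (E c) (E c')) →
    ∀ (R : ι → Type) [∀ c, CommRing (R c)] [∀ c, IsDomain (R c)] [∀ c, CharZero (R c)]
      (ac : ∀ c, R c →+* AddMonoid.End (WL L (E c)).Point) (d : ∀ c, R c →+* K),
      (∀ c, Function.Injective (d c)) →
      (∀ c ρ (D : Derivation K L L) (P : (WL L (E c)).Point),
        zd D (ac c ρ P) = algebraMap K L (d c ρ) * zd D P) →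
      (∀ c ρ (F : IntermediateField K L) (P : (WL L (E c)).Point), IP (F : Set L) P →
        IP (F : Set L) (ac c ρ P)) →
    ∀ (τ : Type) [Fintype τ] [DecidableEq τ]
    (cl : τ → ι), (∀ i k, i ≠ k → cl i = cl k → EndLW (E (cl i)) (ac (cl i))) →
    ∀ w : ∀ j, (WL L (E (cl j))).Point,
    TFamR (M := fun c => (WL L (E c)).Point) ac
      (fun c => {P | IP (Set.range (algebraMap κ L)) P}) cl w →
    (∀ ρ < Fintype.card τ, ∀ (cl' : Fin ρ → ι) (n : ∀ i : Fin ρ, τ → R (cl' i)),
      TFamR (M := fun c => (WL L (E c)).Point) ac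
        (fun c => {P | IP (Set.range (algebraMap κ L)) P})
        cl' (fun i => cmbR (M := fun c => (WL L (E c)).Point) ac cl w (cl' i) (n i)) →
      AlgebraicIndependent κ
        (fun i => xc (cmbR (M := fun c => (WL L (E c)).Point) ac cl w (cl' i) (n i)))) →
    ¬ AlgebraicIndependent κ (fun j => xc (w j)) →
    ∀ (D : Derivation κ L L) (α : τ → κ),
      (∀ j, D (xc (w j)) = algebraMap κ L (α j) * ps (w j)) → α = 0

theorem stepsRW (hTRC : Pool.Agent.Helper92.TN.TRC) (hDALG : DALG) : STEPSRW := by
  intro K L _ _ _ _ _ _ W _ R _ ac d hEnd hzd F D hFc hDF v P hv hvt hzv hP hzP hPa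
  obtain ⟨x, y, h, rfl⟩ : ∃ x y, ∃ h : (WL L W).Nonsingular x y, v = Affine.Point.some x y h := by
    rcases v with _ | ⟨x, y, h⟩
    · exact absurd rfl hv
    · exact ⟨x, y, h, rfl⟩
  obtain ⟨r, S, hr, hS, hzS⟩ := core hTRC hDALG F D hDF h hzv P hP hzP hPa
  haveI := closed F hFc
  have h2 : (2 : L) ≠ 0 := by
    haveI : CharZero L := charZero_of_injective_algebraMap (algebraMap K L).injective
    exact two_ne_zero
  set v : (WL L W).Point := Affine.Point.some x y h with hvd
  set G : IntermediateField F L := IntermediateField.adjoin F ({xc v, ps v} : Set L) with hG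
  have hx : x ∈ G := IntermediateField.subset_adjoin F _ (by simp [hvd, xc])
  have hψ : 2 * y + (WL L W).a₁ * x + (WL L W).a₃ ∈ G :=
    IntermediateField.subset_adjoin F _ (by simp [hvd, ps])
  have hK : ∀ a : K, algebraMap K L a ∈ G := by
    intro a
    have h3 : algebraMap K L a = algebraMap F L (algebraMap K F a) :=
      IsScalarTower.algebraMap_apply K F L a
    rw [h3]
    exact G.algebraMap_mem _
  have ha1 : (WL L W).a₁ ∈ G := by
    show (WeierstrassCurve.map W (algebraMap K L)).a₁ ∈ G
    rw [WeierstrassCurve.map_a₁]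
    exact hK _
  have ha3 : (WL L W).a₃ ∈ G := by
    show (WeierstrassCurve.map W (algebraMap K L)).a₃ ∈ G
    rw [WeierstrassCurve.map_a₃]
    exact hK _
  have h2m : (2 : L) ∈ G := by
    have := hK 2
    rwa [map_ofNat] at this
  have hy : y ∈ G := by
    have h3 : y = (2 * y + (WL L W).a₁ * x + (WL L W).a₃ - (WL L W).a₁ * x - (WL L W).a₃) / 2 := by
      field_simp
      ring
    rw [h3]
    exact div_mem (sub_mem (sub_mem hψ (mul_mem ha1 hx)) ha3) h2m
  have hle : (IntermediateField.adjoin F ({x, y} : Set L)) ≤ G := by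
    rw [IntermediateField.adjoin_le_iff]
    rintro z (rfl | rfl)
    · exact hx
    · exact hy
  have hSG : IP (G : Set L) S := by
    rcases hS with h0 | h1
    · exact Or.inl h0
    · exact Or.inr ⟨hle (GG_le F x y h1.1), hle (GG_le F x y h1.2)⟩
  obtain ⟨m, φ, c, hm, hc, hcF⟩ := hEnd F inferInstance v (Affine.Point.some_ne_zero h) hvt S hSG
  refine ⟨m * r, φ, c, mul_ne_zero hm hr, hcF, ?_⟩
  have hadd := Pool.Agent.Helper85.T3.DADD.t K L W D (ac φ v) c
  have hns : ∀ n : ℕ, zd D (n • S) = n * zd D S := by
    intro n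
    induction n with
    | zero =>
      rw [zero_nsmul]
      simp [zd, xc]
    | succ n ih =>
      rw [succ_nsmul, Pool.Agent.Helper85.T3.DADD.t K L W D (n • S) S, ih]
      push_cast
      ring
  rw [← hc, hns, hzS, hzd] at hadd
  push_cast
  rw [mul_assoc, hadd]
  ring


theorem trlrW (hDALG : DALG) (hS : STEPSRW) (hN : STEPN) (hACLA : ACLA) : TRLRW := by
  intro K L _ _ _ _ _ _ ι _ E hE hNI R _ ac d hd τ _ _ cl v C D hCalg hCD hv hzv c P0 hCM hP0 hzP0 hal0
  haveI : ∀ c, (E c).IsElliptic := hE
  obtain ⟨x, hx⟩ : ∃ x : τ → L, x = fun j => xc (v j) := ⟨_, rfl⟩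
  -- the induction
  have main : ∀ (B : Finset τ) (P : (WL L (E c)).Point), P ≠ 0 → zd D P ∈ C →
      xc P ∈ acl K (SS C x B) →
      ∃ (N : ℕ) (n : τ → R c), N ≠ 0 ∧ (∀ j, cl j ≠ c → n j = 0) ∧
        (N : L) * zd D P = ∑ j, algebraMap K L (d c (n j)) * zd D (v j) := by
    intro B
    induction B using Finset.induction_on with
    | empty =>
      intro P hP hzP hal
      have h1 := (hACLA K L (SS C x ∅) ∅).1 (xc P)
      have h2 : IntermediateField.adjoin K (SS C x ∅) = C := by
        unfold SS
        rw [Finset.coe_empty, Set.image_empty, Set.union_empty]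
        exact IntermediateField.adjoin_self K C
      have h3 : IsAlgebraic C (xc P) := by
        have h4 := h1.1 hal
        rw [h2] at h4
        exact h4
      have h5 : D (xc P) = 0 := hCD _ (hCalg _ h3)
      refine ⟨1, fun _ => 0, one_ne_zero, fun _ _ => rfl, ?_⟩
      have h6 : zd D P = 0 := by
        unfold zd
        rw [h5, zero_div]
      simp [h6]
    | insert b B hb IH =>
      intro P hP hzP hal
      obtain ⟨F, hF⟩ : ∃ F : IntermediateField K L, F = acl K (SS C x B) := ⟨_, rfl⟩
      obtain ⟨a1, a2, a3, -, -, -, a7⟩ := hACLA K L (SS C x B) ∅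
      have hU : ∀ T : Set L, acl K ((F : Set L) ∪ T) = acl K (SS C x B ∪ T) := by
        intro T
        rw [hF]
        exact (hACLA K L (SS C x B) T).2.2.2.1
      have hSF : SS C x B ⊆ (F : Set L) := by
        rw [hF]
        exact a2
      have hCF : ∀ z ∈ C, z ∈ F := fun z hz => hSF (Or.inl hz)
      have hFt : ∀ z, z ∈ F ∨ Transcendental F z := by
        rw [hF]
        exact a7 inferInstance
      have hFalg : ∀ z : L, IsAlgebraic F z → z ∈ F := by
        intro z hz
        rcases hFt z with h | h
        · exact h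
        · exact absurd hz h
      -- `D` maps `F` to `F`
      have hDF : ∀ z ∈ F, D z ∈ F := by
        intro z hz
        have h4 := (hDALG K L D).2.2.2 (SS C x B) ?_ z ?_
        · rw [hF]
          exact (a1 _).2 h4
        · rintro y (hy | ⟨j, hj, rfl⟩)
          · rw [hCD y hy]
            exact isAlgebraic_zero
          · obtain ⟨hv1, hv2⟩ := hv j
            have hxj : x j = xc (v j) := by rw [hx]
            have h5 : D (x j) = zd D (v j) * ps (v j) := by
              unfold zd
              rw [hxj, div_mul_cancel₀ _ hv2]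
            rw [h5]
            have hmem : ∀ y, y ∈ SS C x B →
                IsAlgebraic (IntermediateField.adjoin K (SS C x B)) y := by
              intro y hy
              exact isAlgebraic_algebraMap
                (⟨y, IntermediateField.subset_adjoin K _ hy⟩ :
                  IntermediateField.adjoin K (SS C x B))
            refine IsAlgebraic.mul (hmem _ (Or.inl (hzv j))) ?_
            have h6 : IsAlgebraic (IntermediateField.adjoin K (SS C x B)) (ps (v j) ^ 2) := by
              rw [ps_sq (v j) hv1]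
              have h7 : Bf (WL L (E (cl j))) (xc (v j)) ∈
                  IntermediateField.adjoin K (SS C x B) := by
                have hxm : xc (v j) ∈ IntermediateField.adjoin K (SS C x B) := by
                  rw [← hxj]
                  exact IntermediateField.subset_adjoin K _ (Or.inr ⟨j, hj, rfl⟩)
                have e2 : (WL L (E (cl j))).b₂ = algebraMap K L (E (cl j)).b₂ :=
                  WeierstrassCurve.map_b₂ _ _
                have e4 : (WL L (E (cl j))).b₄ = algebraMap K L (E (cl j)).b₄ :=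
                  WeierstrassCurve.map_b₄ _ _
                have e6 : (WL L (E (cl j))).b₆ = algebraMap K L (E (cl j)).b₆ :=
                  WeierstrassCurve.map_b₆ _ _
                unfold Bf
                rw [e2, e4, e6]
                have hk : ∀ r : K, algebraMap K L r ∈ IntermediateField.adjoin K (SS C x B) :=
                  fun r => IntermediateField.algebraMap_mem _ r
                have h4m : (4 : L) ∈ IntermediateField.adjoin K (SS C x B) := by
                  have := hk 4
                  rwa [map_ofNat] at this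
                have h2m : (2 : L) ∈ IntermediateField.adjoin K (SS C x B) := by
                  have := hk 2
                  rwa [map_ofNat] at this
                exact add_mem (add_mem (add_mem (mul_mem h4m (pow_mem hxm 3))
                  (mul_mem (hk _) (pow_mem hxm 2))) (mul_mem (mul_mem h2m (hk _)) hxm)) (hk _)
              exact isAlgebraic_algebraMap
                (⟨_, h7⟩ : IntermediateField.adjoin K (SS C x B))
            exact IsAlgebraic.of_pow (by norm_num) h6
        · rw [hF] at hz
          exact (a1 _).1 hz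
      have hins : SS C x (insert b B) = SS C x B ∪ {x b} := by
        unfold SS
        rw [Finset.coe_insert, Set.image_insert_eq, Set.union_assoc, Set.union_singleton]
      rw [hins] at hal
      by_cases hbF : x b ∈ F
      · refine IH P hP hzP ?_
        have e1 : acl K (SS C x B ∪ {x b}) = acl K (SS C x B) := by
          have e2 := hU {x b}
          have e3 := hU ∅
          rw [Set.union_empty, Set.union_empty] at e3
          have e4 : (F : Set L) ∪ {x b} = (F : Set L) :=
            Set.union_eq_left.2 (Set.singleton_subset_iff.2 hbF)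
          rw [e4] at e2
          rw [← e2, e3]
        rw [e1] at hal
        exact hal
      have htr : Transcendental F (xc (v b)) := by
        rcases hFt (x b) with h | h
        · exact absurd h hbF
        · rw [hx] at h
          exact h
      have halP : IsAlgebraic (IntermediateField.adjoin K ((F : Set L) ∪ {xc (v b)})) (xc P) := by
        rw [← hU {x b}] at hal
        have h1 := ((hACLA K L ((F : Set L) ∪ {x b}) ∅).1 (xc P)).1 hal
        rw [hx] at h1
        exact h1
      -- the one-variable step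
      have hstep : ∃ (N : ℕ) (φ : R c) (Q : (WL L (E c)).Point), N ≠ 0 ∧
          (cl b ≠ c → φ = 0) ∧ IP (F : Set L) Q ∧
          zd D Q = N * zd D P - algebraMap K L (d c φ) * zd D (v b) := by
        by_cases hbc : cl b = c
        · subst hbc
          obtain ⟨N, φ, Q, h1, h2, h3⟩ := hS K L (E (cl b)) (R (cl b)) (ac (cl b))
            (d (cl b)) (hCM b rfl) (hd (cl b)) F D hFalg hDF (v b) P (hv b).1 htr (hCF _ (hzv b)) hP (hCF _ hzP) halP
          exact ⟨N, φ, Q, h1, fun h => absurd rfl h, h2, h3⟩
        · obtain ⟨N, Q, h1, h2, h3⟩ := hN K L (E (cl b)) (E c) (hNI _ _ hbc) F D hFalg hDF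
            (v b) P (hv b).1 htr (hCF _ (hzv b)) hP (hCF _ hzP) halP
          exact ⟨N, 0, Q, h1, fun _ => rfl, h2, by rw [h3]; simp⟩
      obtain ⟨N, φ, Q, hN0, hφ, hQF, hQ⟩ := hstep
      have hsum : ∀ a : R c, ∑ j, algebraMap K L (d c ((Pi.single b a : τ → R c) j)) *
          zd D (v j) = algebraMap K L (d c a) * zd D (v b) := by
        intro a
        rw [Finset.sum_eq_single b]
        · rw [Pi.single_eq_same]
        · intro j _ hj
          rw [Pi.single_eq_of_ne hj]
          simp
        · intro h
          exact absurd (Finset.mem_univ b) h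
      have hsupp : ∀ a : R c, (cl b ≠ c → a = 0) → ∀ j, cl j ≠ c →
          (Pi.single b a : τ → R c) j = 0 := by
        intro a ha j hj
        by_cases hjb : j = b
        · subst hjb
          rw [Pi.single_eq_same]
          exact ha hj
        · rw [Pi.single_eq_of_ne hjb]
      by_cases hQ0 : Q = 0
      · have h0 : zd D Q = 0 := by
          rw [hQ0]
          unfold zd
          rw [xc_zero, map_zero, zero_div]
        refine ⟨N, Pi.single b φ, hN0, hsupp φ hφ, ?_⟩
        rw [hsum]
        rw [h0] at hQ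
        linear_combination -hQ
      · have hzQ : zd D Q ∈ C := by
          rw [hQ]
          exact sub_mem (mul_mem (natCast_mem C N) hzP) (mul_mem (IntermediateField.algebraMap_mem C _) (hzv b))
        have hxQ : xc Q ∈ acl K (SS C x B) := by
          rcases hQF with h | h
          · exact absurd h hQ0
          · rw [← hF]
            exact h.1
        obtain ⟨N2, n, h1, h2, h3⟩ := IH Q hQ0 hzQ hxQ
        refine ⟨N2 * N, fun j => n j + (Pi.single b ((N2 : R c) * φ) : τ → R c) j,
          Nat.mul_ne_zero h1 hN0, ?_, ?_⟩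
        · intro j hj
          show n j + (Pi.single b ((N2 : R c) * φ) : τ → R c) j = 0
          rw [h2 j hj, zero_add]
          exact hsupp _ (fun h => by rw [hφ h, mul_zero]) j hj
        · have e1 : ∑ j, algebraMap K L (d c (n j + (Pi.single b ((N2 : R c) * φ) :
                τ → R c) j)) * zd D (v j) =
              ∑ j, algebraMap K L (d c (n j)) * zd D (v j) +
                algebraMap K L (d c ((N2 : R c) * φ)) * zd D (v b) := by
            rw [← hsum, ← Finset.sum_add_distrib]
            refine Finset.sum_congr rfl fun j _ => ?_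
            rw [map_add, map_add]
            ring
          rw [e1, ← h3, hQ, map_mul, map_mul, map_natCast, map_natCast]
          push_cast
          ring
  refine main Finset.univ P0 hP0 hzP0 ?_
  refine ((hACLA K L (SS C x Finset.univ) ∅).1 _).2 ?_
  have e1 : SS C x Finset.univ = (C : Set L) ∪ Set.range fun j => xc (v j) := by
    unfold SS
    rw [Finset.coe_univ, Set.image_univ, hx]
  rw [e1]
  exact hal0


/-- **S_CLAIMW** from the goals -/
theorem claimW (hTRL : TRLRW) (hMAXT : MAXT) (hCOUNT : COUNT) (hZC : ZCMBR) (hCM : CMBCR)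
    (hACLA : Pool.Agent.Helper92.TN.ACLA) : S_CLAIMW := by
  classical
  intro K κ L _ _ _ _ _ _ _ _ _ _ _ ι _ E hE hiso R _ _ _ ac d hd hzd hIP τ _ _ cl hEnd w hTF hP
    hdep D α hα
  by_contra hα0
  haveI : CharZero κ := charZero_of_injective_algebraMap (algebraMap K κ).injective
  -- the points are not constant
  have hw : ∀ j, w j ∉ {P : (WL L (E (cl j))).Point | IP (Set.range (algebraMap κ L)) P} := by
    intro j
    have h := hTF (cl j) (fun i => if i = j then 1 else 0) ⟨j, rfl, by simp⟩
    have h2 := Pool.Agent.Helper60.TG.cmbR_single (R := R) (M := fun c => (WL L (E c)).Point) ac cl w j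
    rw [h2] at h
    exact h
  have hw0 : ∀ j, w j ≠ 0 := fun j h => hw j (Or.inl h)
  have hxt : ∀ j, Transcendental κ (xc (w j)) := by
    intro j hj
    exact hw j (Pool.Agent.Helper44.T3.CASB.ip_of_x (E (cl j)) (w j) (hw0 j)
      (Pool.Agent.Helper52.T3.CFACT.const_of_alg _ hj))
  have hps : ∀ j, ps (w j) ≠ 0 := by
    intro j h
    have h1 := Pool.Agent.Helper24.SGB.ps_sq (w j) (hw0 j)
    rw [h] at h1
    have hE' := hE (cl j)
    have h2 : IsAlgebraic κ (xc (w j)) :=
      Pool.Agent.Helper52.T3.CFACT.alg_of_Bf (E (cl j)) _ (by rw [← h1]; ring)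
    exact hxt j h2
  set DK : Derivation K L L := D.restrictScalars K with hDK
  have hDKe : ∀ z, DK z = D z := fun z => rfl
  have hz : ∀ j, zd DK (w j) = algebraMap κ L (α j) := by
    intro j
    unfold zd
    rw [hDKe, hα j, mul_div_cancel_right₀ _ (hps j)]
  set x : τ → L := fun j => xc (w j) with hx
  set M : IntermediateField κ L := acl κ (Set.range x) with hM
  set C : IntermediateField κ L := cst D ⊓ M with hC
  obtain ⟨aM1, aM2, -, aM4, -, -, -⟩ := hACLA κ L (Set.range x) ∅
  have hMcl : ∀ z : L, IsAlgebraic M z → z ∈ M := by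
    intro z hz
    obtain ⟨b1, -, -, -, -, -, -⟩ := hACLA κ L (M : Set L) ∅
    have h1 : z ∈ acl κ ((M : Set L) ∪ ∅) := by
      rw [Set.union_empty, b1]
      refine alg_mono ?_ hz
      exact fun y hy => IntermediateField.subset_adjoin κ _ hy
    rw [hM, aM4, Set.union_empty] at h1
    exact h1
  have hCcl : ∀ z : L, IsAlgebraic C z → z ∈ C := by
    intro z hz
    refine ⟨?_, hMcl z (alg_mono inf_le_right hz)⟩
    have h1 : IsAlgebraic (cst D) z := alg_mono inf_le_left hz
    exact Pool.Agent.Helper79.T3.DEX.alg_cst D z h1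
  have hC0 : ∀ z ∈ C, D z = 0 := fun z hz => hz.1
  have hCM' : ∀ z ∈ C, IsAlgebraic (IntermediateField.adjoin κ (Set.range x)) z := fun z hz =>
    (aM1 z).1 hz.2
  obtain ⟨T, hT, hTx⟩ := hMAXT K κ L τ x C
  set CK : IntermediateField K L := C.restrictScalars K with hCK
  have hCKcl : ∀ z : L, IsAlgebraic CK z → z ∈ CK := fun z hz => hCcl z hz
  have hCK0 : ∀ z ∈ CK, DK z = 0 := fun z hz => hC0 z hz
  have hadj : ∀ z : L, IsAlgebraic (IntermediateField.adjoin K (CK : Set L)) z → z ∈ CK := by
    intro z hz
    refine hCKcl z (alg_mono ?_ hz)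
    exact IntermediateField.adjoin_le_iff.2 subset_rfl
  -- `T` is not empty
  have hTne : T.Nonempty := by
    rw [Finset.nonempty_iff_ne_empty]
    rintro rfl
    obtain ⟨j, hj⟩ : ∃ j, α j ≠ 0 := by
      by_contra h
      push Not at h
      exact hα0 (funext h)
    have h1 := hTx j
    rw [Finset.coe_empty, Set.image_empty, Set.union_empty] at h1
    have h2 : D (x j) = 0 := hCK0 _ (hadj _ h1)
    have h3 := hα j
    rw [show xc (w j) = x j from rfl, h2] at h3
    rcases mul_eq_zero.1 h3.symm with h4 | h4
    · exact hj ((map_eq_zero _).1 h4)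
    · exact hps j h4
  -- the relations
  have hrel : ∀ a : {a : τ // a ∉ T}, ∃ (N : ℕ) (n : {b : τ // b ∈ T} → R (cl a.1)), N ≠ 0 ∧
      (∀ b : {b : τ // b ∈ T}, cl b.1 ≠ cl a.1 → n b = 0) ∧
      (N : L) * zd DK (w a.1) =
        ∑ b : {b : τ // b ∈ T}, algebraMap K L (d (cl a.1) (n b)) * zd DK (w b.1) := by
    intro a
    refine hTRL K L ι E hE hiso R ac d hzd {b : τ // b ∈ T} (fun b => cl b.1)
      (fun b => w b.1) CK DK hCKcl hCK0 (fun b => ⟨hw0 b.1, hps b.1⟩) ?_ (cl a.1) (w a.1) ?_
      (hw0 a.1) ?_ ?_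
    · intro b
      rw [hz]
      exact C.algebraMap_mem _
    · intro b hb
      have hne : a.1 ≠ b.1 := by
        intro h
        exact a.2 (h ▸ b.2)
      exact hEnd a.1 b.1 hne hb.symm
    · rw [hz]
      exact C.algebraMap_mem _
    · have h1 := hTx a.1
      have h2 : x '' (T : Set τ) = Set.range fun b : {b : τ // b ∈ T} => xc (w b.1) := by
        ext z
        constructor
        · rintro ⟨b, hb, rfl⟩
          exact ⟨⟨b, hb⟩, rfl⟩
        · rintro ⟨b, rfl⟩
          exact ⟨b.1, b.2, rfl⟩
      rw [h2] at h1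
      exact h1
  choose N n hN hn hsum using hrel
  -- the coefficients of the constant combinations
  set m : ∀ a : {a : τ // a ∉ T}, τ → R (cl a.1) := fun a j =>
    if j = a.1 then (N a : R (cl a.1)) else if h : j ∈ T then - n a ⟨j, h⟩ else 0 with hm
  set l : ∀ a : {a : τ // a ∉ T}, (WL L (E (cl a.1))).Point := fun a =>
    cmbR (M := fun c => (WL L (E c)).Point) ac cl w (cl a.1) (m a) with hl
  have hzl : ∀ a, zd DK (l a) = 0 := by
    intro a
    rw [hl]
    simp only
    rw [(hZC K L ι E hE R ac d hzd hIP τ cl w (cl a.1) (m a)).1 DK]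
    have hsub : insert a.1 T ⊆ Finset.univ := Finset.subset_univ _
    rw [← Finset.sum_subset hsub, Finset.sum_insert a.2]
    · rw [if_pos rfl]
      have e1 : m a a.1 = (N a : R (cl a.1)) := by
        rw [hm]
        simp
      rw [e1, map_natCast, map_natCast, hsum a]
      have e2 : ∀ b ∈ T, (if cl b = cl a.1 then algebraMap K L (d (cl a.1) (m a b)) *
          zd DK (w b) else 0) = (fun b : τ => if h : b ∈ T then
            - (algebraMap K L (d (cl a.1) (n a ⟨b, h⟩)) * zd DK (w b)) else 0) b := by
        intro b hb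
        have hne : b ≠ a.1 := fun h => a.2 (h ▸ hb)
        simp only [dif_pos hb]
        have e3 : m a b = - n a ⟨b, hb⟩ := by
          rw [hm]
          simp only [if_neg hne, dif_pos hb]
        rw [e3, map_neg, map_neg]
        by_cases hcl : cl b = cl a.1
        · rw [if_pos hcl]
          ring
        · rw [if_neg hcl, hn a ⟨b, hb⟩ hcl]
          simp
      rw [Finset.sum_congr rfl e2, ← Finset.sum_coe_sort T]
      rw [← Finset.sum_add_distrib]
      refine Finset.sum_eq_zero fun b _ => ?_
      rw [dif_pos b.2]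
      ring
    · intro j _ hj
      rw [Finset.mem_insert, not_or] at hj
      have e1 : m a j = 0 := by
        rw [hm]
        simp only [if_neg hj.1, dif_neg hj.2]
      rw [e1]
      simp
  -- the coordinates are constants of `M`
  have hMK : ∀ j, IP ((M.restrictScalars K : IntermediateField K L) : Set L) (w j) := by
    intro j
    refine Or.inr ⟨?_, ?_⟩
    · show xc (w j) ∈ M
      exact aM2 ⟨j, rfl⟩
    · show ps (w j) ∈ M
      have h1 : Bf (WL L (E (cl j))) (xc (w j)) ∈ (M.restrictScalars K : IntermediateField K L) :=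
        Pool.Agent.Helper44.T3.CASB.bf_mem (E (cl j)) (F := M.restrictScalars K)
          (by
            show xc (w j) ∈ M
            exact aM2 ⟨j, rfl⟩)
      have hE' := hE (cl j)
      rw [← Pool.Agent.Helper24.SGB.ps_sq (w j) (hw0 j)] at h1
      have h2 : ps (w j) ^ 2 ∈ M := h1
      refine hMcl _ ?_
      have h3 : IsAlgebraic M (ps (w j) ^ 2) :=
        isAlgebraic_algebraMap (A := L) (⟨_, h2⟩ : M)
      exact h3.of_pow (by norm_num)
  have hlC : ∀ a, xc (l a) ∈ C := by
    intro a
    have hlM : IP ((M.restrictScalars K : IntermediateField K L) : Set L) (l a) :=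
      (hZC K L ι E hE R ac d hzd hIP τ cl w (cl a.1) (m a)).2 _ fun j _ => hMK j
    by_cases hl0 : l a = 0
    · rw [hl0]
      show (0 : L) ∈ C
      exact zero_mem C
    have hxM : xc (l a) ∈ M := by
      rcases hlM with h | h
      · exact absurd h hl0
      · exact h.1
    have h1 := hzl a
    unfold zd at h1
    rcases div_eq_zero_iff.1 h1 with h2 | h2
    · exact ⟨h2, hxM⟩
    · have hE' := hE (cl a.1)
      have h3 := Pool.Agent.Helper24.SGB.ps_sq (l a) hl0
      rw [h2] at h3
      have h4 : IsAlgebraic κ (xc (l a)) :=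
        Pool.Agent.Helper52.T3.CFACT.alg_of_Bf (E (cl a.1)) _ (by rw [← h3]; ring)
      obtain ⟨c, hc⟩ := Pool.Agent.Helper52.T3.CFACT.const_of_alg _ h4
      rw [← hc]
      exact C.algebraMap_mem c
  -- the family `l` is totally fast
  set e : Fin (Fintype.card {a : τ // a ∉ T}) ≃ {a : τ // a ∉ T} :=
    (Fintype.equivFin {a : τ // a ∉ T}).symm with he
  have hcard : Fintype.card {a : τ // a ∉ T} < Fintype.card τ := by
    obtain ⟨b, hb⟩ := hTne
    exact Fintype.card_subtype_lt (x := b) (by simpa using hb)
  have hfree := hP _ hcard (fun i => cl (e i).1) (fun i => m (e i)) ?_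
  · refine hCOUNT κ L τ x hdep C hCcl hCM' T hT (fun a => xc (l a)) hlC ?_
    have h1 := hfree.comp e.symm e.symm.injective
    have h2 : ((fun i => xc (cmbR (M := fun c => (WL L (E c)).Point) ac cl w
        (cl (e i).1) (m (e i)))) ∘ e.symm) = fun a => xc (l a) := by
      funext a
      have h3 : ∀ b : {a : τ // a ∉ T}, b = a → xc (cmbR (M := fun c => (WL L (E c)).Point) ac cl w
        (cl b.1) (m b)) = xc (l a) := by
        rintro b rfl
        rfl
      exact h3 _ (e.apply_symm_apply a)
    rw [h2] at h1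
    exact h1
  · intro c k ⟨i, hi, hki⟩ hmem
    have h1 := hCM ι τ (Fin (Fintype.card {a : τ // a ∉ T})) R
      (fun c => (WL L (E c)).Point) ac cl w (fun i => cl (e i).1) (fun i => m (e i)) c k
    rw [h1] at hmem
    refine hTF c _ ⟨(e i).1, hi, ?_⟩ hmem
    rw [Finset.sum_eq_single i]
    · rw [dif_pos hi]
      have e1 : m (e i) (e i).1 = (N (e i) : R (cl (e i).1)) := by
        rw [hm]
        simp
      rw [e1, cast_nat (R := R) hi]
      exact mul_ne_zero hki (Nat.cast_ne_zero.2 (hN (e i)))
    · intro i' _ hi'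
      by_cases h : cl (e i').1 = c
      · rw [dif_pos h]
        have hne : (e i).1 ≠ (e i').1 := by
          intro h'
          exact hi' (e.injective (Subtype.ext h'.symm))
        have e1 : m (e i') (e i).1 = 0 := by
          rw [hm]
          simp only [if_neg hne, dif_neg (e i).2]
        rw [e1, cast_zero' (R := R) h, mul_zero]
      · rw [dif_neg h]
    · intro h
      exact absurd (Finset.mem_univ i) h

theorem th_STEPSRW : STEPSRW := stepsRW Pool.Agent.Helper60.TG.th_TRC Pool.Agent.Helper60.TG.th_DALG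

theorem th_TRLRW : TRLRW :=
  trlrW Pool.Agent.Helper60.TG.th_DALG th_STEPSRW
    (Pool.Agent.Helper62.TG.STEPN.t Pool.Agent.Helper60.TG.th_TRC Pool.Agent.Helper60.TG.th_DALG)
    Pool.Agent.Helper87.TN.ACLA.t

/-- **the claim** -/
theorem th_CLAIMW : S_CLAIMW :=
  claimW th_TRLRW Pool.Agent.Helper80.TG.MAXT.t
    (Pool.Agent.Helper75.TG.COUNT.t Pool.Agent.Helper87.TN.ACLA.t
      Pool.Agent.Helper69.TN.ACLB.t) Pool.Agent.Helper80.TG.ZCMBR.t
    Pool.Agent.Helper40.TG.CMBCR.t Pool.Agent.Helper87.TN.ACLA.t

end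

end Pool.Agent.Helper60.TGX
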