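import Pool.Agent.Helper60.TGX.Defs
import Pool.Agent.Helper92.TG.MainX
import Pool.Agent.Helper44.T3.CASB
import Pool.Agent.Helper19.TG.PRM

/-!
# Project TGX (MP_a41896_nt): S_FI, S_TRN2, S_P2, S_P1
-/

set_option autoImplicit false

open Polynomial

namespace Pool.Agent.Helper60.TGX

open WeierstrassCurve Height
open Pool.Agent.Helper29.BL Pool.Agent.Helper42.SG
open Pool.Agent.Helper60.T3 (WL zd IP th_SUBF th_DADD th_DEX)
open Pool.Agent.Helper42.TN (NonIsog)
open Pool.Agent.Helper42.TG (Endo RAct)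
open Pool.Agent.Helper92.TG (Dv)
open Pool.Agent.Helper68.TG.M (PairM)

noncomputable section

/-- the composite algebra -/
@[reducible] def cA (k k₁ F : Type) [Field k] [Field k₁] [Field F] [Algebra k k₁]
    [Algebra k₁ F] : Algebra k F :=
  ((algebraMap k₁ F).comp (algebraMap k k₁)).toAlgebra

/-- a tower of fields has the composite algebra -/
theorem cA_eq (k k₁ F : Type) [Field k] [Field k₁] [Field F] [Algebra k k₁] [Algebra k₁ F]
    (i : Algebra k F) (h : IsScalarTower k k₁ F) : i = cA k k₁ F :=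
  Algebra.algebra_ext _ _ fun r => IsScalarTower.algebraMap_apply k k₁ F r

/-- `Val` under base change -/
theorem val_map {k k₁ F : Type} [Field k] [Field k₁] [Field F] [Algebra k k₁] [Algebra k₁ F]
    {W W' : Affine k} (A B C E : k[X]) (P : (WL F (WL k₁ W)).Point)
    (R : (WL F (WL k₁ W')).Point) :
    Val (W := WL k₁ W) (W' := WL k₁ W') (A.map (algebraMap k k₁)) (B.map (algebraMap k k₁))
      (C.map (algebraMap k k₁)) (E.map (algebraMap k k₁)) P R ↔
    letI : Algebra k F := cA k k₁ F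
    Val (W := W) (W' := W') A B C E P R := by
  letI : Algebra k F := cA k k₁ F
  haveI : IsScalarTower k k₁ F := IsScalarTower.of_algebraMap_eq fun _ => rfl
  unfold Val
  rw [aeval_map_algebraMap, aeval_map_algebraMap, aeval_map_algebraMap, aeval_map_algebraMap]
  exact Iff.rfl

/-- `AddF` under base change -/
theorem addF_map {k k₁ : Type} [Field k] [Field k₁] [Algebra k k₁] {W W' : Affine k}
    {A B C E : k[X]} (h : AddF W W' A B C E) :
    AddF (WL k₁ W) (WL k₁ W') (A.map (algebraMap k k₁)) (B.map (algebraMap k k₁))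
      (C.map (algebraMap k k₁)) (E.map (algebraMap k k₁)) where
  cop := h.cop.map (mapRingHom (algebraMap k k₁))
  hB := fun h0 => h.hB ((Polynomial.map_eq_zero _).1 h0)
  hE := fun h0 => h.hE ((Polynomial.map_eq_zero _).1 h0)
  nc := fun h0 => h.nc (by
    rw [derivative_map, derivative_map, ← Polynomial.map_mul, ← Polynomial.map_mul,
      ← Polynomial.map_sub, Polynomial.map_eq_zero] at h0
    exact h0)
  ex := by
    intro F _ _ _ P hP
    letI : Algebra k F := cA k k₁ F
    haveI : IsScalarTower k k₁ F := IsScalarTower.of_algebraMap_eq fun _ => rfl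
    obtain ⟨R, hR⟩ := h.ex F P (hP.restrictScalars (algebraMap k k₁).injective)
    exact ⟨R, (val_map A B C E P R).2 hR⟩
  add := by
    intro F _ _ _ P Q R R' R'' hPQ h1 h2 h3
    letI : Algebra k F := cA k k₁ F
    haveI : IsScalarTower k k₁ F := IsScalarTower.of_algebraMap_eq fun _ => rfl
    exact h.add F P Q R R' R'' (hPQ.restrictScalars (algebraMap k k₁).injective)
      ((val_map A B C E P R).1 h1) ((val_map A B C E Q R').1 h2)
      ((val_map A B C E (P + Q : (WL F (WL k₁ W)).Point) R'').1 h3)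

/-- **S_FI** -/
theorem fi (h3 : S_C3) (h4 : S_C4) : S_FI := by
  intro k _ _ _ W W' hW hW' A B C E h
  obtain ⟨f, hf⟩ := h3 k W W' hW hW' A B C E h
  obtain ⟨h5, h6⟩ := h4 k W W' hW hW' A B C E h f hf
  refine ⟨(f.f k : (WL k W).Point →+ (WL k W').Point), A, B, ⟨h.cop, h5⟩, fun P hP hB => ?_⟩
  have h7 := h6 k (P : (WL k W).Point) hP
  rw [coe_aeval_eq_eval] at h7
  obtain ⟨h8, h9⟩ := h7 hB
  exact ⟨h8, (mul_comm _ _).trans h9⟩

/-- transcendence of a quotient -/
theorem trans_val {k F : Type} [Field k] [Field F] [Algebra k F] {A B : k[X]}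
    (hnc : derivative A * B - A * derivative B ≠ 0) {x u : F} (hx : Transcendental k x)
    (h : u * aeval x B = aeval x A) : Transcendental k u := by
  intro hu
  set G := algebraicClosure k F with hG
  have huG : u ∈ G := mem_algebraicClosure_iff.2 hu
  have h1 : aeval x (A.map (algebraMap k G) - Polynomial.C (⟨u, huG⟩ : G) *
      B.map (algebraMap k G)) = 0 := by
    rw [map_sub, map_mul, aeval_map_algebraMap, aeval_map_algebraMap, aeval_C, ← h]
    exact sub_self _
  by_cases h0 : A.map (algebraMap k G) - Polynomial.C (⟨u, huG⟩ : G) * B.map (algebraMap k G) = 0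
  · apply hnc
    apply Polynomial.map_injective (algebraMap k G) (algebraMap k G).injective
    rw [Polynomial.map_zero, Polynomial.map_sub, Polynomial.map_mul, Polynomial.map_mul,
      ← derivative_map, ← derivative_map, sub_eq_zero.1 h0]
    simp only [derivative_mul, derivative_C]
    ring
  · have h2 : IsAlgebraic G x := ⟨_, h0, h1⟩
    exact hx (h2.restrictScalars k)

/-- the coordinates of the value -/
theorem ip_val {k F : Type} [Field k] [Field F] [Algebra k F] {W W' : Affine k}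
    {A B C E : k[X]} (hB : B ≠ 0) (hE : E ≠ 0) {P : (WL F W).Point} {R : (WL F W').Point}
    (hP : Transcendental k (xc P)) (h : Val A B C E P R) :
    IP (IntermediateField.adjoin k ({xc P, ps P} : Set F) : Set F) R := by
  obtain ⟨-, h1, h2⟩ := h
  set G := IntermediateField.adjoin k ({xc P, ps P} : Set F) with hG
  have hx : xc P ∈ G := IntermediateField.subset_adjoin k _ (Set.mem_insert _ _)
  have hp : ps P ∈ G := IntermediateField.subset_adjoin k _ (Set.mem_insert_of_mem _ rfl)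
  have hB' : aeval (xc P) B ≠ 0 := fun h0 => hP ⟨B, hB, h0⟩
  have hE' : aeval (xc P) E ≠ 0 := fun h0 => hP ⟨E, hE, h0⟩
  have hmem : ∀ p : k[X], aeval (xc P) p ∈ G := fun p => by
    have h3 := (aeval (⟨xc P, hx⟩ : G) p).2
    have h4 : aeval (xc P) p = ((aeval (⟨xc P, hx⟩ : G) p : G) : F) :=
      aeval_algHom_apply G.val (⟨xc P, hx⟩ : G) p
    rw [h4]
    exact h3
  refine Or.inr ⟨?_, ?_⟩
  · rw [eq_div_of_mul_eq hB' h1]
    exact G.div_mem (hmem A) (hmem B)
  · rw [eq_div_of_mul_eq hE' h2]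
    exact G.div_mem (G.mul_mem (hmem C) hp) (hmem E)

/-- the field of a point -/
theorem adj_some {k F : Type} [Field k] [Field F] [CharZero F] [Algebra k F] (W : Affine k)
    (x y : F) (h : (WL F W).Nonsingular x y) :
    IntermediateField.adjoin k ({xc (Affine.Point.some x y h : (WL F W).Point),
      ps (Affine.Point.some x y h : (WL F W).Point)} : Set F) =
    IntermediateField.adjoin k ({x, y} : Set F) := by
  have e1 : xc (Affine.Point.some x y h : (WL F W).Point) = x := rfl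
  have e2 : ps (Affine.Point.some x y h : (WL F W).Point) =
      2 * y + algebraMap k F W.a₁ * x + algebraMap k F W.a₃ := rfl
  apply le_antisymm
  · rw [IntermediateField.adjoin_le_iff]
    set G := IntermediateField.adjoin k ({x, y} : Set F) with hG
    have hx : x ∈ G := IntermediateField.subset_adjoin k _ (Set.mem_insert _ _)
    have hy : y ∈ G := IntermediateField.subset_adjoin k _ (Set.mem_insert_of_mem _ rfl)
    rintro z (rfl | rfl)
    · exact hx
    · rw [e2]
      exact G.add_mem (G.add_mem (G.mul_mem (ofNat_mem G 2) hy)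
        (G.mul_mem (G.algebraMap_mem _) hx)) (G.algebraMap_mem _)
  · rw [IntermediateField.adjoin_le_iff]
    set G := IntermediateField.adjoin k ({xc (Affine.Point.some x y h : (WL F W).Point),
      ps (Affine.Point.some x y h : (WL F W).Point)} : Set F) with hG
    have hx : x ∈ G := IntermediateField.subset_adjoin k _ (Set.mem_insert _ _)
    have hy : 2 * y + algebraMap k F W.a₁ * x + algebraMap k F W.a₃ ∈ G :=
      IntermediateField.subset_adjoin k _ (Set.mem_insert_of_mem _ rfl)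
    rintro z (rfl | rfl)
    · exact hx
    · have h3 : z = (2 * z + algebraMap k F W.a₁ * x + algebraMap k F W.a₃ -
        algebraMap k F W.a₁ * x - algebraMap k F W.a₃) / 2 := by
        field_simp
        ring
      rw [h3]
      exact G.div_mem (G.sub_mem (G.sub_mem hy (G.mul_mem (G.algebraMap_mem _) hx))
        (G.algebraMap_mem _)) (ofNat_mem G 2)

/-- the coordinates of a point -/
theorem ip_some {k F : Type} [Field k] [Field F] [CharZero F] [Algebra k F] (W : Affine k)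
    (G : IntermediateField k F) (x y : F) (h : (WL F W).Nonsingular x y) :
    IP (G : Set F) (Affine.Point.some x y h : (WL F W).Point) ↔ x ∈ G ∧ y ∈ G := by
  have e2 : ps (Affine.Point.some x y h : (WL F W).Point) =
      2 * y + algebraMap k F W.a₁ * x + algebraMap k F W.a₃ := rfl
  constructor
  · rintro (h0 | ⟨h1, h2⟩)
    · exact absurd h0 (by simp)
    · have h1' : x ∈ G := h1
      refine ⟨h1', ?_⟩
      rw [e2] at h2
      have h3 : y = (2 * y + algebraMap k F W.a₁ * x + algebraMap k F W.a₃ -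
        algebraMap k F W.a₁ * x - algebraMap k F W.a₃) / 2 := by
        field_simp
        ring
      rw [h3]
      exact G.div_mem (G.sub_mem (G.sub_mem h2 (G.mul_mem (G.algebraMap_mem _) h1'))
        (G.algebraMap_mem _)) (ofNat_mem G 2)
  · rintro ⟨h1, h2⟩
    refine Or.inr ⟨h1, ?_⟩
    rw [e2]
    exact G.add_mem (G.add_mem (G.mul_mem (ofNat_mem G 2) h2)
        (G.mul_mem (G.algebraMap_mem _) h1)) (G.algebraMap_mem _)

/-- a not constant point over the field of a generic point -/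
theorem not_nonIsog {k Ω L : Type} [Field k] [Field Ω] [CharZero Ω] [IsAlgClosed Ω] [Field L]
    [Algebra k Ω] [Algebra Ω L] (W W' : Affine k) (P : (WL L (WL Ω W)).Point)
    (R : (WL L (WL Ω W')).Point) (hP : Transcendental Ω (xc P)) (hR : Transcendental Ω (xc R))
    (h : IP (IntermediateField.adjoin Ω ({xc P, ps P} : Set L) : Set L) R) : ¬ NonIsog W W' := by
  intro hNI
  letI : Algebra k L := cA k Ω L
  haveI : IsScalarTower k Ω L := IsScalarTower.of_algebraMap_eq fun _ => rfl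
  haveI : CharZero L := charZero_of_injective_algebraMap (algebraMap Ω L).injective
  rcases P with _ | ⟨x, y, hxy⟩
  · exact hP (by
      show IsAlgebraic Ω (0 : L)
      exact isAlgebraic_zero)
  rcases R with _ | ⟨x', y', hxy'⟩
  · exact hR (by
      show IsAlgebraic Ω (0 : L)
      exact isAlgebraic_zero)
  have h1 := adj_some (WL Ω W) x y hxy
  have h2 : IP ((IntermediateField.adjoin Ω ({x, y} : Set L) : IntermediateField Ω L) : Set L)
      (Affine.Point.some x' y' hxy' : (WL L (WL Ω W')).Point) := by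
    rw [← h1]
    exact h
  obtain ⟨h3, h4⟩ := (ip_some (WL Ω W') _ x' y' hxy').1 h2
  obtain ⟨c, hc⟩ := hNI Ω L x y x' y' hP hxy.1 hxy'.1 h3 h4
  exact hR (by
    show IsAlgebraic Ω x'
    rw [← hc]
    exact isAlgebraic_algebraMap c)

/-- **S_TRN2** -/
theorem trn2 : S_TRN2 := by
  intro k _ _ W W' W'' hW hW' hW'' A B C E A' B' C' E' h h'
  set Ω := AlgebraicClosure k with hΩ
  have g := addF_map (k₁ := Ω) h
  have g' := addF_map (k₁ := Ω) h'
  haveI : CharZero Ω := charZero_of_injective_algebraMap (algebraMap k Ω).injective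
  obtain ⟨L, i1, i2, i3, P, Q, D, D', hPQ, -⟩ := Pool.Agent.Helper92.TG.MainX.th_GPQ Ω (WL Ω W)
    inferInstance
  have hP : Transcendental Ω (xc P) := hPQ.transcendental 0
  obtain ⟨R, hR⟩ := g.ex L P hP
  have hRt : Transcendental Ω (xc R) := trans_val g.nc hP hR.2.1
  obtain ⟨S, hS⟩ := g'.ex L R hRt
  have hSt : Transcendental Ω (xc S) := trans_val g'.nc hRt hS.2.1
  refine not_nonIsog W W'' P S hP hSt ?_
  have h1 := ip_val g.hB g.hE hP hR
  have h2 := ip_val g'.hB g'.hE hRt hS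
  have h3 : IntermediateField.adjoin Ω ({xc R, ps R} : Set L) ≤
      IntermediateField.adjoin Ω ({xc P, ps P} : Set L) := by
    rw [IntermediateField.adjoin_le_iff]
    rcases h1 with h1 | ⟨h1, h4⟩
    · exact absurd h1 hR.1
    · rintro z (rfl | rfl)
      · exact h1
      · exact h4
  rcases h2 with h2 | ⟨h2, h5⟩
  · exact Or.inl h2
  · exact Or.inr ⟨h3 h2, h3 h5⟩

/-- **S_P2** -/
theorem p2 (h1 : S_C1) (h2 : S_C2) : S_P2 := by
  classical
  intro K _ _ W W' hW hW' hNI
  by_contra hcon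
  apply hNI
  intro Ω _ _ _ F _ j _ _ x y x' y' hx hxy hxy' hmx hmy
  by_contra hx'
  apply hcon
  obtain rfl := cA_eq K Ω F j inferInstance
  haveI : CharZero Ω := charZero_of_injective_algebraMap (algebraMap K Ω).injective
  haveI : CharZero F := charZero_of_injective_algebraMap (algebraMap Ω F).injective
  have n1 : (WL F (WL Ω W)).Nonsingular x y := (Affine.equation_iff_nonsingular).1 hxy
  have n2 : (WL F (WL Ω W')).Nonsingular x' y' := (Affine.equation_iff_nonsingular).1 hxy'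
  have hS : Transcendental Ω x' := fun h0 => hx' (by
    obtain ⟨c, hc⟩ := Pool.Agent.Helper52.T3.CFACT.const_of_alg (κ := Ω) x' h0
    exact ⟨c, hc⟩)
  obtain ⟨A, B, C, E, R, c, hadd, -⟩ := h1 Ω (WL Ω W) (WL Ω W') inferInstance inferInstance F
    (Affine.Point.some x y n1) (Affine.Point.some x' y' n2) hx (by
      rw [adj_some]
      exact (ip_some (WL Ω W') _ x' y' n2).2 ⟨hmx, hmy⟩) hS
  obtain ⟨K₂, i1, i2, i3, i4, i5, A₂, B₂, C₂, E₂, hadd2, -⟩ := h2 K Ω W W' hW hW' A B C E hadd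
  refine ⟨K₂, i1, i2, i3, ?_⟩
  intro k _ _ j2 _ _
  obtain rfl := cA_eq K K₂ k j2 inferInstance
  have h3 := addF_map (k₁ := k) hadd2
  exact ⟨_, _, _, _, h3⟩

/-! ## S_P1 -/

theorem zd_zero {L : Type} [Field L] (D : L → L) (h0 : D 0 = 0) {W : Affine L} :
    zd D (0 : W.Point) = 0 := by
  show D 0 / ps (0 : W.Point) = 0
  rw [h0, zero_div]

theorem zd_nsmul {k L : Type} [Field k] [CharZero k] [Field L] [DecidableEq L] [Algebra k L]
    (W : Affine k) [W.IsElliptic] (D : Derivation k L L) (m : ℕ) (P : (WL L W).Point) :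
    zd D (m • P) = m * zd D P := by
  induction m with
  | zero => rw [zero_smul, zd_zero D (map_zero D), Nat.cast_zero, zero_mul]
  | succ m ih =>
    rw [succ_nsmul, th_DADD k L W D, ih]
    push_cast
    ring

theorem zd_sub {k L : Type} [Field k] [CharZero k] [Field L] [DecidableEq L] [Algebra k L]
    (W : Affine k) [W.IsElliptic] (D : Derivation k L L) (P Q : (WL L W).Point) :
    zd D (P - Q) = zd D P - zd D Q := by
  have h := th_DADD k L W D (P - Q) Q
  rw [sub_add_cancel] at h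
  rw [h]
  ring

/-- a point which is killed by all derivations is constant -/
theorem ip_of_zd {k Ω L : Type} [Field k] [CharZero k] [Field Ω] [CharZero Ω] [IsAlgClosed Ω]
    [Field L] [Algebra k Ω] [Algebra Ω L] [Algebra k L] [IsScalarTower k Ω L]
    (W : Affine k) (T : (WL L W).Point) (h : ∀ D : Derivation Ω L L, zd D T = 0) :
    IP (Set.range (algebraMap Ω L)) T := by
  by_cases hT : T = 0
  · exact Or.inl hT
  refine Pool.Agent.Helper44.T3.CASB.ip_of_x W T hT ?_
  by_contra hx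
  have htr : Transcendental Ω (xc T) := fun h0 =>
    hx (Pool.Agent.Helper52.T3.CFACT.const_of_alg (κ := Ω) (xc T) h0)
  obtain ⟨D, hD, -⟩ := th_DEX Ω L (xc T) 1 htr one_ne_zero
  have h1 := h D
  have h2 : D (xc T) / ps T = 0 := h1
  rw [hD] at h2
  have h3 : ps T ≠ 0 := by
    intro h0
    have h4 := Pool.Agent.Helper24.SGB.ps_sq T hT
    rw [h0, zero_pow two_ne_zero] at h4
    exact htr (Pool.Agent.Helper52.T3.CFACT.alg_of_Bf (κ := Ω) W (xc T) h4.symm)
  exact (div_ne_zero one_ne_zero h3) h2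

/-- sums of constant points -/
theorem ip_range {k Ω L : Type} [Field k] [CharZero k] [Field Ω] [Field L] [DecidableEq L]
    [Algebra k Ω] [Algebra Ω L] [Algebra k L] [IsScalarTower k Ω L]
    (W : Affine k) (P Q : (WL L W).Point) (hP : IP (Set.range (algebraMap Ω L)) P)
    (hQ : IP (Set.range (algebraMap Ω L)) Q) :
    IP (Set.range (algebraMap Ω L)) (P + Q) ∧ ∀ n : ℕ, IP (Set.range (algebraMap Ω L)) (n • P) := by
  have e : Set.range (algebraMap Ω L) =
      (((IsScalarTower.toAlgHom k Ω L).fieldRange : IntermediateField k L) : Set L) := by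
    rw [AlgHom.coe_fieldRange]
    rfl
  rw [e] at hP hQ ⊢
  obtain ⟨h1, -, -, h2⟩ := th_SUBF k L W _ P Q hP hQ
  exact ⟨h1, h2⟩

/-- two formulas with the same quotients have the same value -/
theorem val_eq {Ω L : Type} [Field Ω] [Field L] [CharZero L] [Algebra Ω L] {W W' : Affine Ω}
    {A B C E A' B' C' E' : Polynomial Ω} (hB : B ≠ 0) (hE : E ≠ 0) (hB' : B' ≠ 0) (hE' : E' ≠ 0)
    (h1 : A * B' = A' * B) (h2 : C * E' = C' * E) {P : (WL L W).Point} {R R' : (WL L W').Point}
    (hP : Transcendental Ω (xc P)) (h : Val A B C E P R) (h' : Val A' B' C' E' P R') :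
    R = R' := by
  obtain ⟨h3, h4, h5⟩ := h
  obtain ⟨h3', h4', h5'⟩ := h'
  have hb : aeval (xc P) B ≠ 0 := fun h0 => hP ⟨B, hB, h0⟩
  have he : aeval (xc P) E ≠ 0 := fun h0 => hP ⟨E, hE, h0⟩
  have hb' : aeval (xc P) B' ≠ 0 := fun h0 => hP ⟨B', hB', h0⟩
  have he' : aeval (xc P) E' ≠ 0 := fun h0 => hP ⟨E', hE', h0⟩
  have g1 := congrArg (aeval (xc P)) h1
  have g2 := congrArg (aeval (xc P)) h2
  rw [map_mul, map_mul] at g1 g2
  refine Pool.Agent.Helper19.TG.pt_eq h3 h3' ?_ ?_
  · apply mul_right_cancel₀ (mul_ne_zero hb hb')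
    linear_combination aeval (xc P) B' * h4 - aeval (xc P) B * h4' + g1
  · apply mul_right_cancel₀ (mul_ne_zero he he')
    linear_combination aeval (xc P) E' * h5 - aeval (xc P) E * h5' + ps P * g2

/-- the derivative of the value of a formula -/
theorem zd_val {k₂ Ω F : Type} [Field k₂] [CharZero k₂] [Field Ω] [Field F] [CharZero F]
    [DecidableEq F] [Algebra k₂ Ω] [Algebra Ω F] (V : Affine k₂) {A B C E : Polynomial Ω}
    {A₂ B₂ C₂ E₂ : k₂[X]} (hadd : AddF (WL Ω V) (WL Ω V) A B C E) (hadd2 : AddF V V A₂ B₂ C₂ E₂)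
    (g1 : A * B₂.map (algebraMap k₂ Ω) = A₂.map (algebraMap k₂ Ω) * B)
    (g2 : C * E₂.map (algebraMap k₂ Ω) = C₂.map (algebraMap k₂ Ω) * E) (ρ₂ : Endo V)
    (hf : ∀ (F : Type) [Field F] [DecidableEq F] [Algebra k₂ F] (P : (WL F V).Point),
      Transcendental k₂ (xc P) → Val A₂ B₂ C₂ E₂ P (ρ₂.f F P)) (r₂ : k₂) (hr₂ : Dv ρ₂ r₂)
    (P R₀ : (WL F (WL Ω V)).Point) (hP : Transcendental Ω (xc P)) (hval : Val A B C E P R₀)
    (D : Derivation Ω F F) : zd D R₀ = algebraMap Ω F (algebraMap k₂ Ω r₂) * zd D P := by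
  letI : Algebra k₂ F := cA k₂ Ω F
  haveI : IsScalarTower k₂ Ω F := IsScalarTower.of_algebraMap_eq fun _ => rfl
  have hP2 : Transcendental k₂ (xc P) := hP.restrictScalars (algebraMap k₂ Ω).injective
  have hf1 := hf F P hP2
  have hf2 := (val_map (k₁ := Ω) A₂ B₂ C₂ E₂ P (ρ₂.f F P)).2 hf1
  have h4 := addF_map (k₁ := Ω) hadd2
  have h5 : R₀ = ρ₂.f F P := val_eq hadd.hB hadd.hE h4.hB h4.hE g1 g2 hP hval hf2
  rw [h5]
  exact hr₂ F (D.restrictScalars k₂) P

/-- the derivative of the value of a formula, towers -/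
theorem zd_val' {k k₂ Ω F : Type} [Field k] [Field k₂] [CharZero k₂] [Field Ω] [Field F]
    [CharZero F] [DecidableEq F] [Algebra k k₂] [Algebra k₂ Ω] [i : Algebra k Ω]
    [ht : IsScalarTower k k₂ Ω]
    [Algebra Ω F] (V : Affine k) {A B C E : Polynomial Ω}
    {A₂ B₂ C₂ E₂ : k₂[X]} (hadd : AddF (WL Ω V) (WL Ω V) A B C E)
    (hadd2 : AddF (WL k₂ V) (WL k₂ V) A₂ B₂ C₂ E₂)
    (g1 : A * B₂.map (algebraMap k₂ Ω) = A₂.map (algebraMap k₂ Ω) * B)
    (g2 : C * E₂.map (algebraMap k₂ Ω) = C₂.map (algebraMap k₂ Ω) * E) (ρ₂ : Endo (WL k₂ V))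
    (hf : ∀ (F : Type) [Field F] [DecidableEq F] [Algebra k₂ F] (P : (WL F (WL k₂ V)).Point),
      Transcendental k₂ (xc P) → Val A₂ B₂ C₂ E₂ P (ρ₂.f F P)) (r₂ : k₂) (hr₂ : Dv ρ₂ r₂)
    (P R₀ : (WL F (WL Ω V)).Point) (hP : Transcendental Ω (xc P)) (hval : Val A B C E P R₀)
    (D : Derivation Ω F F) : zd D R₀ = algebraMap Ω F (algebraMap k₂ Ω r₂) * zd D P := by
  obtain rfl := cA_eq k k₂ Ω i ht
  exact zd_val (WL k₂ V) hadd hadd2 g1 g2 ρ₂ hf r₂ hr₂ P R₀ hP hval D

/-- the core of S_P1 -/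
theorem p1_core (h1 : S_C1) (h2 : S_C2) (h3 : S_C3) (hEX : S_EXW) {k : Type} [Field k]
    [NumberField k] (V : Affine k) (hV : V.IsElliptic) (R : Subring k)
    (ac : ∀ (F : Type) [Field F] [DecidableEq F] [Algebra k F], R →+* AddMonoid.End (WL F V).Point)
    (hac : RAct V R ac) (hD : ∀ (k₂ : Type) [Field k₂] [NumberField k₂] [Algebra k k₂]
      (ρ : Endo (WL k₂ V)) (r₂ : k₂), Dv ρ r₂ → ∃ (m : ℕ) (r : k), m ≠ 0 ∧ r ∈ R ∧
        (m : k₂) * r₂ = algebraMap k k₂ r) : RAllW V R ac := by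
  intro Ω _ _ _ F _ _ j _ _ x y h hx x' y' h' hmx hmy
  obtain rfl := cA_eq k Ω F j inferInstance
  letI : Algebra k F := cA k Ω F
  haveI : CharZero Ω := charZero_of_injective_algebraMap (algebraMap k Ω).injective
  haveI : CharZero F := charZero_of_injective_algebraMap (algebraMap Ω F).injective
  by_cases hx' : x' ∈ Set.range (algebraMap Ω F)
  · refine ⟨1, 0, Affine.Point.some x' y' h', one_ne_zero, ?_,
      Pool.Agent.Helper44.T3.CASB.ip_of_x V _ (by simp) hx'⟩
    rw [map_zero, one_smul]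
    exact (zero_add _).symm
  have hS : Transcendental Ω x' := fun h0 =>
    hx' (Pool.Agent.Helper52.T3.CFACT.const_of_alg (κ := Ω) x' h0)
  have n1 : (WL F (WL Ω V)).Nonsingular x y := h
  have n2 : (WL F (WL Ω V)).Nonsingular x' y' := h'
  have hS2 : IP (IntermediateField.adjoin Ω ({xc (Affine.Point.some x y n1 :
      (WL F (WL Ω V)).Point), ps (Affine.Point.some x y n1 : (WL F (WL Ω V)).Point)} : Set F) :
      Set F) (Affine.Point.some x' y' n2 : (WL F (WL Ω V)).Point) := by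
    rw [adj_some (WL Ω V) x y n1]
    exact (ip_some (WL Ω V) _ x' y' n2).2 ⟨hmx, hmy⟩
  have hV2 : (WL Ω V).IsElliptic := inferInstance
  obtain ⟨A, B, C, E, R₀, c, hadd, hval, hc, hSR⟩ := h1 Ω (WL Ω V) (WL Ω V) hV2 hV2 F
    (Affine.Point.some x y n1) (Affine.Point.some x' y' n2) hx hS2 hS
  obtain ⟨K₂, i1, i2, i3, i4, i5, A₂, B₂, C₂, E₂, hadd2, g1, g2⟩ :=
    h2 k Ω V V hV hV A B C E hadd
  obtain ⟨f, hf⟩ := h3 K₂ (WL K₂ V) (WL K₂ V) inferInstance inferInstance A₂ B₂ C₂ E₂ hadd2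
  obtain ⟨r₂, hr₂⟩ := (hEX K₂ (WL K₂ V) inferInstance).1 ⟨f.f, f.nat⟩
  obtain ⟨m, r, hm, hr, hmr⟩ := hD K₂ ⟨f.f, f.nat⟩ r₂ hr₂
  have hz : ∀ D : Derivation Ω F F, zd D R₀ = algebraMap Ω F (algebraMap K₂ Ω r₂) *
      zd D (Affine.Point.some x y n1 : (WL F (WL Ω V)).Point) := fun D =>
    zd_val' V hadd hadd2 g1 g2 ⟨f.f, f.nat⟩ hf r₂ hr₂ (Affine.Point.some x y n1) R₀ hx hval D
  obtain ⟨R1, hR1⟩ : ∃ R1 : (WL F V).Point, R1 = (R₀ : (WL F (WL Ω V)).Point) := ⟨R₀, rfl⟩
  obtain ⟨c1, hc1⟩ : ∃ c1 : (WL F V).Point, c1 = (c : (WL F (WL Ω V)).Point) := ⟨c, rfl⟩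
  have hSR' : (Affine.Point.some x' y' h' : (WL F V).Point) = R1 + c1 := by
    rw [hR1, hc1]
    exact hSR
  have hc' : IP (Set.range (algebraMap Ω F)) c1 := by
    rw [hc1]
    exact hc
  have hz' : ∀ D : Derivation Ω F F, zd D R1 = algebraMap Ω F (algebraMap K₂ Ω r₂) *
      zd D (Affine.Point.some x y h : (WL F V).Point) := by
    rw [hR1]
    exact hz
  have hT : IP (Set.range (algebraMap Ω F)) (m • R1 -
      ac F ⟨r, hr⟩ (Affine.Point.some x y h : (WL F V).Point)) := by
    refine ip_of_zd V _ fun D => ?_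
    have e1 := zd_sub V (D.restrictScalars k) (m • R1)
      (ac F ⟨r, hr⟩ (Affine.Point.some x y h : (WL F V).Point))
    have e2 := zd_nsmul V (D.restrictScalars k) m R1
    have e3 := hac.dif ⟨r, hr⟩ F (D.restrictScalars k) (Affine.Point.some x y h)
    have e4 : zd (D.restrictScalars k) R1 = algebraMap Ω F (algebraMap K₂ Ω r₂) *
      zd (D.restrictScalars k) (Affine.Point.some x y h : (WL F V).Point) := hz' D
    have e5 : (m : F) * algebraMap Ω F (algebraMap K₂ Ω r₂) = algebraMap k F r := by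
      have e6 : algebraMap k F r = algebraMap Ω F (algebraMap k Ω r) := rfl
      rw [e6, IsScalarTower.algebraMap_apply k K₂ Ω r, ← hmr]
      simp only [map_mul, map_natCast]
    have e7 : zd (D.restrictScalars k) (m • R1 -
      ac F ⟨r, hr⟩ (Affine.Point.some x y h : (WL F V).Point)) = 0 := by
      rw [e1, e2, e3, e4, ← mul_assoc, e5]
      exact sub_self _
    exact e7
  refine ⟨m, ⟨r, hr⟩, m • R1 - ac F ⟨r, hr⟩ (Affine.Point.some x y h : (WL F V).Point) + m • c1,
    hm, ?_, (ip_range V _ _ hT ((ip_range V c1 c1 hc' hc').2 m)).1⟩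
  rw [hSR', smul_add]
  abel

/-- **S_P1** -/
theorem p1 (h1 : S_C1) (h2 : S_C2) (h3 : S_C3) (hEX : S_EXW) (hEN : S_ENBC) (hD2 : S_D2) :
    S_P1 := by
  intro K _ _ W hW
  obtain ⟨K', i1, i2, i3, hK'⟩ := hD2 K W hW
  refine ⟨K', i1, i2, i3, ?_⟩
  intro k _ _ j _ _
  obtain rfl := cA_eq K K' k j inferInstance
  letI : Algebra K k := cA K K' k
  have hV : (WL k W).IsElliptic := inferInstance
  obtain ⟨-, R, ac, hac, hall⟩ := hEX k (WL k W) hV
  refine ⟨R, ac, hac, p1_core h1 h2 h3 hEX (WL k W) hV R ac hac ?_⟩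
  intro k₂ _ _ _ ρ r₂ hr₂
  letI : Algebra K' k₂ := cA K' k k₂
  letI : Algebra K k₂ := cA K k k₂
  haveI : IsScalarTower K K' k₂ := IsScalarTower.of_algebraMap_eq fun _ => rfl
  obtain ⟨m, r', ρ', hm, hρ', hmr⟩ := hK' k₂ (ρ : Endo (WL k₂ W)) r₂ hr₂
  obtain ⟨ρ₁, hρ₁⟩ := hEN K' k (WL K' W) ρ' r' hρ'
  exact ⟨m, algebraMap K' k r', hm, hall ρ₁ _ hρ₁, hmr⟩

end

end Pool.Agent.Helper60.TGX
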