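import Pool.Agent.Helper60.TGX.Asm
import Pool.Agent.Helper60.TGX.PAsm

/-!
# Project TGX (MP_a41896_nt): S_TGX from the goals of the captains
-/

set_option autoImplicit false

namespace Pool.Agent.Helper60.TGX

/-- **S_TGX** from the goals of the captains -/
theorem tgx_of (hBC : S_BC) (hISO : S_ISO) (hTOW : S_TOW) (hNIBC : S_NIBC) (hREFL : S_REFL)
    (h1 : S_C1) (h2 : S_C2) (h3 : S_C3) (h4 : S_C4) (hEX : S_EXW) (hEN : S_ENBC) (hD2 : S_D2) :
    S_TGX :=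
  tgx th_TGW hBC hISO hTOW hNIBC hREFL (p1 h1 h2 h3 hEX hEN hD2) (p2 h1 h2) (fi h3 h4) trn2

end Pool.Agent.Helper60.TGX
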