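import Pool.Agent.Helper60.TGX.Defs
import Pool.Agent.Helper60.TG.GoodA
import Pool.Agent.Helper68.TG.MainM
import Pool.Agent.Helper92.TG.MainH

/-!
# Project TGX (MP_a41896_nt): S_ISO
-/

set_option autoImplicit false

open MvPolynomial

namespace Pool.Agent.Helper60.TGX

open WeierstrassCurve Height
open Pool.Agent.Helper29.BL Pool.Agent.Helper42.SG
open Pool.Agent.Helper5.UN (CodimGT cH)
open Pool.Agent.Helper60.HC (Lo nrs xs)
open Pool.Agent.Helper68.TG.M (PairM MTRF MGENP)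
open Pool.Agent.Helper19.TN (MAINW)

noncomputable section

/-- `y_i = A_i(x_i) / B_i(x_i)` for `i ∈ S`, `y_i = x_i` otherwise -/
def RelS {K : Type} [Field K] {σ : Type} (A B : σ → Polynomial K) (S : Finset σ)
    (x y : σ → K) : Prop :=
  (∀ i ∈ S, Polynomial.eval (x i) (B i) * y i = Polynomial.eval (x i) (A i)) ∧
    ∀ i, i ∉ S → y i = x i

theorem relS_insert {K : Type} [Field K] {σ : Type} [DecidableEq σ] {A B : σ → Polynomial K}
    {S : Finset σ} {b : σ} (hb : b ∉ S) {x y : σ → K} (h : RelS A B (insert b S) x y) :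
    RelS A B S x (Function.update y b (x b)) ∧
      Polynomial.eval (Function.update y b (x b) b) (B b) * y b =
        Polynomial.eval (Function.update y b (x b) b) (A b) ∧
      Function.update (Function.update y b (x b)) b (y b) = y := by
  refine ⟨⟨fun i hi => ?_, fun i hi => ?_⟩, ?_, ?_⟩
  · have hib : i ≠ b := fun h0 => hb (h0 ▸ hi)
    rw [Function.update_of_ne hib]
    exact h.1 i (Finset.mem_insert_of_mem hi)
  · by_cases hib : i = b
    · subst hib
      rw [Function.update_self]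
    · rw [Function.update_of_ne hib]
      refine h.2 i fun h0 => ?_
      rcases Finset.mem_insert.1 h0 with h1 | h1
      · exact hib h1
      · exact hi h1
  · rw [Function.update_self]
    exact h.1 b (Finset.mem_insert_self b S)
  · rw [Function.update_idem, Function.update_eq_self]

theorem iso_gen (hMG : MGENP) {K : Type} [Field K] [NumberField K] {σ : Type} [Fintype σ]
    [DecidableEq σ] (A B : σ → Polynomial K) (hAB : ∀ i, PairM (A i) (B i)) (S : Finset σ) :
    ∀ Z' : MvPolynomial σ K, Z' ≠ 0 → ∃ Z : MvPolynomial σ K, Z ≠ 0 ∧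
      ∀ x y : σ → K, RelS A B S x y → eval y Z' = 0 → eval x Z = 0 := by
  induction S using Finset.induction_on with
  | empty =>
    intro Z' hZ'
    refine ⟨Z', hZ', fun x y hxy h0 => ?_⟩
    have : y = x := funext fun i => hxy.2 i (Finset.notMem_empty i)
    rwa [this] at h0
  | insert b S hb ih =>
    intro Z' hZ'
    obtain ⟨Z1, hZ1, h1⟩ := hMG K (A b) (B b) (hAB b) σ b Z' hZ'
    obtain ⟨Z, hZ, h2⟩ := ih Z1 hZ1
    refine ⟨Z, hZ, fun x y hxy h0 => ?_⟩
    obtain ⟨h3, h4, h5⟩ := relS_insert hb hxy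
    exact h2 x _ h3 (h1 _ (y b) h4 (by rw [h5]; exact h0))

theorem iso_trf (hMT : MTRF) {K : Type} [Field K] [NumberField K] {σ : Type} [Fintype σ]
    [DecidableEq σ] (A B : σ → Polynomial K) (hAB : ∀ i, PairM (A i) (B i)) (S : Finset σ) :
    ∀ (D : ℕ) (ι : Type) [Fintype ι] (f : ι → MvPolynomial σ K),
      (∀ j i, degreeOf i (f j) ≤ D) → CodimGT D f 1 →
      ∃ (E : ℕ) (J : Type) (_ : Fintype J) (f' : J → MvPolynomial σ K) (c : ℝ),
        (∀ j i, degreeOf i (f' j) ≤ E) ∧ CodimGT E f' 1 ∧ 0 ≤ c ∧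
        ∀ x y : σ → K, RelS A B S x y → (∃ j, eval y (f' j) ≠ 0) → (∃ j, eval x (f j) ≠ 0) ∧
          cH D f x ≤ cH E f' y + c := by
  induction S using Finset.induction_on with
  | empty =>
    intro D ι _ f hf hc
    refine ⟨D, ι, inferInstance, f, 0, hf, hc, le_rfl, fun x y hxy h0 => ?_⟩
    have : y = x := funext fun i => hxy.2 i (Finset.notMem_empty i)
    rw [this] at h0 ⊢
    exact ⟨h0, by rw [add_zero]⟩
  | insert b S hb ih =>
    intro D ι _ f hf hc
    obtain ⟨E₁, J₁, i1, f₁, c₁, a1, a2, a3, a4⟩ := ih D ι f hf hc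
    obtain ⟨E₂, J₂, i2, f₂, c₂, b1, b2, b3, b4⟩ := @hMT K _ _ (A b) (B b) (hAB b) σ _ _ E₁ J₁ i1
      f₁ a1 a2 b
    refine ⟨E₂, J₂, i2, f₂, c₁ + c₂, b1, b2, add_nonneg a3 b3, fun x y hxy h0 => ?_⟩
    obtain ⟨h3, h4, h5⟩ := relS_insert hb hxy
    have h6 := b4 _ (y b) h4 (by rw [h5]; exact h0)
    rw [h5] at h6
    have h7 := a4 x _ h3 h6.1
    exact ⟨h7.1, by linarith [h7.2, h6.2]⟩

theorem eval_aevalX {K : Type} [Field K] {σ : Type} (B : Polynomial K) (b : σ) (x : σ → K) :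
    eval x (Polynomial.aeval (X b : MvPolynomial σ K) B) = Polynomial.eval (x b) B := by
  have h1 := Polynomial.hom_eval₂ B (algebraMap K (MvPolynomial σ K)) (eval x) (X b)
  rw [Polynomial.aeval_def, h1, eval_X]
  have h2 : (eval x).comp (algebraMap K (MvPolynomial σ K)) = RingHom.id K := by
    ext c
    simp
  rw [h2, Polynomial.eval₂_id]

theorem aevalX_ne {K : Type} [Field K] [Infinite K] {σ : Type} {B : Polynomial K} (hB : B ≠ 0)
    (b : σ) : Polynomial.aeval (X b : MvPolynomial σ K) B ≠ 0 := by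
  intro h0
  apply hB
  refine Polynomial.funext fun t => ?_
  rw [← eval_aevalX B b (fun _ => t), h0, map_zero, Polynomial.eval_zero]

theorem fg_map {G G' : Type} [AddCommGroup G] [AddCommGroup G'] {P : AddSubgroup G}
    (hP : P.FG) (f : G →+ G') : (P.map f).FG := by
  classical
  obtain ⟨S, hS⟩ := hP
  refine ⟨S.image f, ?_⟩
  rw [Finset.coe_image, ← AddMonoidHom.map_closure, hS]

/-- **S_ISO** -/
theorem iso (hMT : MTRF) (hMG : MGENP) (hHT : Pool.Agent.Helper92.TG.HTAB) : S_ISO := by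
  intro K _ _ _ σ _ _ W W' hW hW' hiso hmain Γ hΓ D ι _ f hf hc ε hε
  choose φ A B hAB hφ using hiso
  have hB0 : ∀ i, B i ≠ 0 := by
    intro i h0
    have h1 := (hAB i).cop
    rw [h0, isCoprime_zero_right] at h1
    have h2 := Polynomial.natDegree_eq_zero_of_isUnit h1
    have h3 := (hAB i).deg
    omega
  obtain ⟨E, J, i1, f', c, a1, a2, a3, a4⟩ := iso_trf hMT A B hAB Finset.univ D ι f hf hc
  obtain ⟨P0, hP0, hoff⟩ := @Pool.Agent.Helper60.TG.off_of K _ _ σ _ _ E J i1 f' a1 a2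
  choose C hC using fun i => hHT K (A i) (B i) (hAB i).cop (hB0 i) (hAB i).deg
  set M : ℝ := ∑ i, ((A i).natDegree : ℝ) with hM
  have hM0 : 0 ≤ M := Finset.sum_nonneg fun i _ => Nat.cast_nonneg _
  have hε' : 0 < ε / (M + 1) := by positivity
  obtain ⟨Z', c', hZ', hc', hh⟩ := @hmain (fun i => (Γ i).map (φ i)) (fun i => fg_map (hΓ i) (φ i))
    E J i1 f' a1 a2 (ε / (M + 1)) hε'
  obtain ⟨Z1, hZ1, hgen⟩ := iso_gen hMG A B hAB Finset.univ (Z' * P0) (mul_ne_zero hZ' hP0)
  refine ⟨Z1 * ∏ i, Polynomial.aeval (X i : MvPolynomial σ K) (B i),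
    c + c' + ε / (M + 1) * ∑ i, |C i|, mul_ne_zero hZ1 (Finset.prod_ne_zero_iff.2 fun i _ =>
      aevalX_ne (hB0 i) i), by positivity, ?_⟩
  intro z hzΓ hz0 hzZ
  rw [map_mul, map_prod] at hzZ
  have hz1 := left_ne_zero_of_mul hzZ
  have hzB : ∀ i, Polynomial.eval (xc (z i)) (B i) ≠ 0 := by
    intro i
    have h1 := Finset.prod_ne_zero_iff.1 (right_ne_zero_of_mul hzZ) i (Finset.mem_univ i)
    rw [eval_aevalX] at h1
    exact h1
  have hφz := fun i => hφ i (z i) (hz0 i) (hzB i)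
  set w : ∀ i, (W' i).Point := fun i => φ i (z i) with hw
  have hrel : RelS A B Finset.univ (xs z) (xs w) :=
    ⟨fun i _ => (hφz i).2, fun i hi => absurd (Finset.mem_univ i) hi⟩
  have hZP : eval (xs w) (Z' * P0) ≠ 0 := fun h0 => hz1 (hgen _ _ hrel h0)
  rw [map_mul] at hZP
  have h1 := a4 _ _ hrel (hoff _ (right_ne_zero_of_mul hZP))
  have h2 := hh w (fun i => AddSubgroup.mem_map_of_mem (φ i) (hzΓ i)) (fun i => (hφz i).1)
    (left_ne_zero_of_mul hZP)
  have h3 : ∀ i, hx (w i) ≤ (M + 1) * hx (z i) + |C i| := by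
    intro i
    have h4 := abs_le.1 (hC i (xc (z i)) (hzB i))
    have h5 : Polynomial.eval (xc (z i)) (A i) / Polynomial.eval (xc (z i)) (B i) = xc (w i) := by
      rw [div_eq_iff (hzB i), ← (hφz i).2, mul_comm]
    rw [h5] at h4
    have h6 : ((A i).natDegree : ℝ) ≤ M :=
      Finset.single_le_sum (f := fun i => ((A i).natDegree : ℝ)) (fun _ _ => Nat.cast_nonneg _)
        (Finset.mem_univ i)
    have h7 : 0 ≤ logHeight₁ (xc (z i)) := zero_le_logHeight₁ _
    show logHeight₁ (xc (w i)) ≤ (M + 1) * logHeight₁ (xc (z i)) + |C i|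
    have h8 := le_abs_self (C i)
    nlinarith [h4.2]
  have h9 : ∑ i, hx (w i) ≤ (M + 1) * ∑ i, hx (z i) + ∑ i, |C i| := by
    rw [Finset.mul_sum, ← Finset.sum_add_distrib]
    exact Finset.sum_le_sum fun i _ => h3 i
  have h10 : ε / (M + 1) * ∑ i, hx (w i) ≤ ε * ∑ i, hx (z i) + ε / (M + 1) * ∑ i, |C i| := by
    calc ε / (M + 1) * ∑ i, hx (w i)
        ≤ ε / (M + 1) * ((M + 1) * ∑ i, hx (z i) + ∑ i, |C i|) :=
          mul_le_mul_of_nonneg_left h9 hε'.le
      _ = ε * ∑ i, hx (z i) + ε / (M + 1) * ∑ i, |C i| := by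
          have : M + 1 ≠ 0 := by positivity
          field_simp
  linarith [h1.2, h2, h10]

theorem th_ISO : S_ISO :=
  iso Pool.Agent.Helper68.TG.M.th_MTRF Pool.Agent.Helper68.TG.M.th_MGENP
    Pool.Agent.Helper92.TG.MainH.th_HTAB

end

end Pool.Agent.Helper60.TGX
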