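import Pool.Agent.Helper60.TGX.Main0
import Pool.Agent.Helper19.TGX.MainC
import Pool.Agent.Helper82.TGX.NT

/-!
# Project TGX (MP_a41896_nt): S_TGX, unconditional
-/

set_option autoImplicit false

namespace Pool.Agent.Helper60.TGX

/-- **TGX**: all centres of codimension at least two in all products of elliptic curves -/
theorem th_TGX : S_TGX :=
  tgx_c Pool.Agent.Helper19.TGX.MainC.th_C1 Pool.Agent.Helper19.TGX.MainC.th_C2
    (Pool.Agent.Helper82.TGX.t_NT Pool.Agent.Helper57.TGX.t_DUPC)

end Pool.Agent.Helper60.TGX
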