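import Pool.Agent.Helper60.TGX.Final
import Pool.Agent.Helper60.TGX.Iso
import Pool.Agent.Helper3.TGX.BC
import Pool.Agent.Helper3.TGX.Small
import Pool.Agent.Helper92.TGX.C4
import Pool.Agent.Helper92.TGX.MainC3
import Pool.Agent.Helper42.TGX.MainD

/-!
# Project TGX (MP_a41896_nt): S_TGX from S_C1, S_C2 and NT
-/

set_option autoImplicit false

namespace Pool.Agent.Helper60.TGX

/-- **S_TGX** from the rigidity and the descent of formulas and NT -/
theorem tgx_c (h1 : S_C1) (h2 : S_C2) (hNT : Pool.Agent.Helper42.TGX.NT) : S_TGX :=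
  tgx_of Pool.Agent.Helper3.TGX.th_BC th_ISO Pool.Agent.Helper3.TGX.th_TOW
    Pool.Agent.Helper3.TGX.th_NIBC Pool.Agent.Helper3.TGX.th_REFL h1 h2
    Pool.Agent.Helper92.TGX.th_C3 Pool.Agent.Helper92.TGX.th_C4 Pool.Agent.Helper92.TGX.th_EXW
    Pool.Agent.Helper92.TGX.th_ENBC (Pool.Agent.Helper42.TGX.nt_D2 hNT)

end Pool.Agent.Helper60.TGX
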