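import Pool.Agent.Helper60.TGX.Defs
import Pool.Agent.Helper60.TGX.ClaimW
import Pool.Agent.Helper19.TG.Main

/-!
# Project TGX (MP_a41896_nt): S_PRM with rings which are large up to integer factors
-/

set_option autoImplicit false

open MvPolynomial

namespace Pool.Agent.Helper60.TGX

open WeierstrassCurve Height
open Pool.Agent.Helper29.BL
open Pool.Agent.Helper92.Ru hiding cmb
open Pool.Agent.Helper42.SG
open Pool.Agent.Helper60.HC (Lo nrs xs)
open Pool.Agent.Helper60.T3 (WL zd IP)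
open Pool.Agent.Helper42.TG (cmb TFam cmbR TFamR slowP Free GK gl gm KL S_FLAT KLX LNK GPT
  SLW RAct acK acS HTR)
open Pool.Agent.Helper42.TN (NonIsog NoCM NotFlat S_FSTEPF AlN)
open Pool.Agent.Helper19.TN (UD Pr AlB alB)
open Pool.Agent.Helper19.TG (pt_eq phi_act ip_act pr_core)

noncomputable section

/-- S_PRM with `RAllW` -/
def S_PRMW : Prop :=
  ∀ (K : Type) [Field K] [NumberField K] [DecidableEq K] (ι : Type) [DecidableEq ι]
    (E : ι → Affine K), (∀ c, (E c).IsElliptic) →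
    (∀ c c', c ≠ c' → NonIsog (E c) (E c')) →
    ∀ (R : ι → Subring K) (ac : ∀ (c : ι) (F : Type) [Field F] [DecidableEq F] [Algebra K F],
      R c →+* AddMonoid.End (WL F (E c)).Point), (∀ c, RAct (E c) (R c) (ac c)) →
    ∀ (σ : Type) [Fintype σ] [DecidableEq σ]
    (cl : σ → ι), (∀ i k, i ≠ k → cl i = cl k → RAllW (E (cl i)) (R (cl i)) (ac (cl i))) →
    ∀ (H : ∀ c, (E c).Point → ℝ) (c₀ : ℝ), (∀ c, CanH (E c) (H c) c₀) →
    ∀ (U : Ultrafilter ℕ) (y : ℕ → ∀ i, (E (cl i)).Point),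
    UD (W := fun i => E (cl i)) U (nrs (W := fun i => E (cl i)) fun i => H (cl i)) y →
    ∀ (r : ℕ) (cl' : Fin r → ι) (n : ∀ j : Fin r, σ → R (cl' j)),
      TFamR (M := fun c => ℕ → (E c).Point) (fun c => acS (ac c))
        (fun c => slowP U (fun k => nrs (W := fun i => E (cl i)) (fun i => H (cl i)) (y k)) (H c))
        cl' (fun j => cmbR (M := fun c => ℕ → (E c).Point) (fun c => acS (ac c)) cl
          (fun i k => y k i) (cl' j) (n j)) →
      Free U (fun k => nrs (W := fun i => E (cl i)) (fun i => H (cl i)) (y k))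
        (fun j k => xc (cmbR (M := fun c => ℕ → (E c).Point) (fun c => acS (ac c)) cl
          (fun i k => y k i) (cl' j) (n j) k))

theorem endLW_of_rall {K L : Type} [Field K] [CharZero K] [Field L] [DecidableEq L] [Algebra K L]
    (W : Affine K) {R : Subring K} {ac : ∀ (F : Type) [Field F] [DecidableEq F] [Algebra K F],
      R →+* AddMonoid.End (WL F W).Point} (h : RAllW W R ac) : EndLW (R := R) W (ac L) := by
  intro F hF v hv0 htr S hS
  by_cases hS0 : S = 0
  · refine ⟨1, 0, 0, one_ne_zero, ?_, Or.inl rfl⟩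
    rw [map_zero, hS0, add_zero, smul_zero]
    rfl
  rcases hS with hS | hS
  · exact absurd hS hS0
  rcases v with _ | ⟨x, y, hxy⟩
  · exact absurd rfl hv0
  rcases S with _ | ⟨x', y', hxy'⟩
  · exact absurd rfl hS0
  have h2 : (2 : L) ≠ 0 := by
    have : CharZero L := charZero_of_injective_algebraMap (algebraMap K L).injective
    exact two_ne_zero
  set G : IntermediateField F L := IntermediateField.adjoin F ({x, y} : Set L) with hG
  have hx : x ∈ G := IntermediateField.subset_adjoin F _ (by simp)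
  have hy : y ∈ G := IntermediateField.subset_adjoin F _ (by simp)
  have hK : ∀ a : K, algebraMap K L a ∈ G := by
    intro a
    have h3 : algebraMap K L a = algebraMap F L (algebraMap K F a) :=
      IsScalarTower.algebraMap_apply K F L a
    rw [h3]
    exact G.algebraMap_mem _
  have ha1 : (WL L W).a₁ ∈ G := by
    show (WeierstrassCurve.map W (algebraMap K L)).a₁ ∈ G
    rw [WeierstrassCurve.map_a₁]
    exact hK _
  have ha3 : (WL L W).a₃ ∈ G := by
    show (WeierstrassCurve.map W (algebraMap K L)).a₃ ∈ G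
    rw [WeierstrassCurve.map_a₃]
    exact hK _
  have hle : IntermediateField.adjoin F
      ({xc (Affine.Point.some x y hxy : (WL L W).Point),
        ps (Affine.Point.some x y hxy : (WL L W).Point)} : Set L) ≤ G := by
    rw [IntermediateField.adjoin_le_iff]
    rintro z (rfl | rfl)
    · exact hx
    · show 2 * y + (WL L W).a₁ * x + (WL L W).a₃ ∈ G
      have h2m : (2 : L) ∈ G := by
        have := hK 2
        rwa [map_ofNat] at this
      exact add_mem (add_mem (mul_mem h2m hy) (mul_mem ha1 hx)) ha3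
  have hx' : x' ∈ G := hle hS.1
  have hps' : 2 * y' + (WL L W).a₁ * x' + (WL L W).a₃ ∈ G := hle hS.2
  have hy' : y' ∈ G := by
    have h2m : (2 : L) ∈ G := by
      have := hK 2
      rwa [map_ofNat] at this
    have h3 : y' = (2 * y' + (WL L W).a₁ * x' + (WL L W).a₃ - (WL L W).a₁ * x' -
        (WL L W).a₃) / 2 := by
      field_simp
      ring
    rw [h3]
    exact div_mem (sub_mem (sub_mem hps' (mul_mem ha1 hx')) ha3) h2m
  obtain ⟨m, φ, c, hm, hc, hc'⟩ := h F L x y hxy htr x' y' hxy' hx' hy'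
  refine ⟨m, φ, c, hm, hc, ?_⟩
  rcases hc' with h0 | ⟨⟨u, hu⟩, ⟨w, hw⟩⟩
  · exact Or.inl h0
  · refine Or.inr ⟨?_, ?_⟩
    · rw [← hu]
      exact u.2
    · rw [← hw]
      exact w.2

theorem s_prmW (hFS : S_FSTEPF) (hPDR : Pool.Agent.Helper42.TN.PDR) (hFL : S_FLAT)
    (hCL : S_CLAIMW) (hKLX : KLX) (hLNK : LNK) (hGPT : GPT) (hSLW : SLW) (hHTR : HTR) : S_PRMW := by
  intro K _ _ _ ι _ E hE hNI R ac hR σ _ _ cl hall H c₀ hH U y hU r cl' n hTF
  set N : ℕ → ℝ := fun k => nrs (W := fun i => E (cl i)) (fun i => H (cl i)) (y k) with hN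
  have hNb : ∀ R : ℝ, ∀ᶠ k in (U : Filter ℕ), R ≤ N k := hU.big
  obtain ⟨κ, L, _, _, _, _, _, _, hκ, hL, hT, hKL⟩ := hKLX K U N hNb
  classical
  let _ : DecidableEq L := Classical.decEq L
  choose φ hφ using fun c => hGPT K U L hKL.cst (E c) (hE c)
  have hQ : IsQuad (nrs (W := fun i => E (cl i)) fun i => H (cl i)) :=
    Pool.Agent.Helper60.HC.th_QPI.1 σ (fun i => (E (cl i)).Point) _ fun i => (hH (cl i)).quad
  refine pr_core hFS hPDR hFL hE hH (R := fun c => R c) (fun c => acK (ac c)) ?_ hQ hU hκ hL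
    hKL (fun c => ac c L) φ (fun c s => (hφ c s).2) (fun c ρ s => phi_act hKL.cst (hR c) (hφ c) ρ s)
    (fun c s => hSLW K U N hNb κ L hκ hL hKL (E c) (hE c) (H c) c₀ (hH c) (φ c) (hφ c) s)
    (fun τ _ s => hLNK K U N hNb κ L hκ hL hKL τ s) ?_ r (Fin r) (Fintype.card_fin r) cl' _
    (fun j => ⟨n j, rfl⟩) hTF
  · intro c ρ
    by_cases hρ : ρ = 0
    · refine ⟨0, fun P => ?_⟩
      rw [hρ, map_zero, zero_mul]
      exact le_of_eq (hH c).quad.zero
    · obtain ⟨m, -, hm⟩ := hHTR K (E c) (hE c) (R c) (ac c) (hR c) (H c) c₀ (hH c) ρ hρ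
      exact ⟨m, fun P => (hm P).le⟩
  · intro τ _ _ cl₁ hrep w hw hsm hdep D α hD
    refine hCL K κ L ι E hE hNI (fun c => R c) (fun c => ac c L) (fun c => (R c).subtype)
      (fun c => Subtype.val_injective) (fun c ρ D P => (hR c).dif ρ L D P)
      (fun c ρ F P h => ip_act (hR c) ρ F P h) τ cl₁ (fun i k hik hcl => ?_) w hw hsm hdep D α hD
    obtain ⟨a, b, hab, ha, hb⟩ := hrep i k hik hcl
    rw [← ha]
    exact endLW_of_rall (E (cl a)) (hall a b hab (ha.trans hb.symm))

theorem th_PRMW : S_PRMW :=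
  s_prmW Pool.Agent.Helper19.TN.th_FSTEPF Pool.Agent.Helper19.TN.th_PDR
    Pool.Agent.Helper68.TG.th_FLAT th_CLAIMW Pool.Agent.Helper25.TG.t_KLX
    Pool.Agent.Helper14.TG.t_LNK Pool.Agent.Helper78.TG.t_GPT Pool.Agent.Helper42.TG.t_SLW
    Pool.Agent.Helper92.TG.MainH.th_HTR

end

end Pool.Agent.Helper60.TGX
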