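import Pool.Agent.Helper60.TGX.PRMW
import Pool.Agent.Helper60.TG.MainM

/-!
# Project TGX (MP_a41896_nt): S_TGW
-/

set_option autoImplicit false

open MvPolynomial

namespace Pool.Agent.Helper60.TGX

open WeierstrassCurve Height
open Pool.Agent.Helper29.BL Pool.Agent.Helper42.SG
open Pool.Agent.Helper92.Ru hiding cmb
open Pool.Agent.Helper5.UN (CodimGT cH)
open Pool.Agent.Helper60.HC (Lo nrs xs)
open Pool.Agent.Helper60.T3 (WL)
open Pool.Agent.Helper42.TG (RAct EndsOverK acK acS HTR Free slowP cmbR TFamR)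
open Pool.Agent.Helper42.TN (NonIsog)
open Pool.Agent.Helper3.TG (TH TRF GENP THX)
open Pool.Agent.Helper68.TG.M (PairM MTRF MGENP)
open Pool.Agent.Helper19.TN (UD MAINW)
open Pool.Agent.Helper19.PM
open Pool.Agent.Helper92.TG (cst cst_eq_zero cmbR_one cmbR_extend tfR_comp)
open Pool.Agent.Helper60.TG (Good Move exists_move' coreG exists_good sls mem_sls)

noncomputable section

variable {K : Type} [Field K] [NumberField K] [DecidableEq K] {σ : Type} [Fintype σ]
  [DecidableEq σ] {ι : Type} {E : ι → Affine K}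

/-- no good sequences -/
theorem no_goodW [DecidableEq ι] (hPR : S_PRMW) (hP : S_P1S) (hEM : EMS) (hT : TRF) (hG : GENP)
    (hX : THX)
    (hMT : MTRF) (hMG : MGENP) (hHT : HTR) (hE : ∀ c, (E c).IsElliptic)
    (hNI : ∀ c c', c ≠ c' → NonIsog (E c) (E c'))
    {H : ∀ c, (E c).Point → ℝ} {c₀ : ℝ}
    (hH : ∀ c, CanH (E c) (H c) c₀) (R : ι → Subring K)
    (ac : ∀ (c : ι) (F : Type) [Field F] [DecidableEq F] [Algebra K F],
      R c →+* AddMonoid.End (WL F (E c)).Point) (hac : ∀ c, RAct (E c) (R c) (ac c))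
    (cl : σ → ι) (hall : ∀ i k, i ≠ k → cl i = cl k → RAllW (E (cl i)) (R (cl i)) (ac (cl i)))
    (U : Ultrafilter ℕ) (m : ℕ) (y : ℕ → ∀ i, (E (cl i)).Point)
    (hg : Good (W := fun i => E (cl i)) U (fun i => H (cl i)) y)
    (hm : Fintype.card σ - (sls (W := fun i => E (cl i)) U (fun i => H (cl i)) y).card = m) :
    False := by
  classical
  have hQ : IsQuad (nrs (W := fun i => E (cl i)) fun i => H (cl i)) :=
    Pool.Agent.Helper60.HC.th_QPI.1 σ (fun i => (E (cl i)).Point) (fun i => H (cl i))
      fun i => (hH (cl i)).quad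
  induction m using Nat.strong_induction_on generalizing y with
  | _ m ih =>
  set N : ℕ → ℝ := fun k => nrs (W := fun i => E (cl i)) (fun i => H (cl i)) (y k) with hN
  set S := sls (W := fun i => E (cl i)) U (fun i => H (cl i)) y with hSd
  have hS : ∀ a ∈ S, ∀ δ : ℝ, 0 < δ → ∀ᶠ j in (U : Filter ℕ),
      logHeight₁ (xs (W := fun i => E (cl i)) (y j) a) ≤
        δ * nrs (W := fun i => E (cl i)) (fun i => H (cl i)) (y j) := by
    intro a ha δ hδ
    filter_upwards [mem_sls.1 ha (δ / 2) (half_pos hδ), hg.ud.big (2 * c₀ / δ)] with j h1 h2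
    have h3 := (abs_le.1 ((hH (cl a)).near (y j a))).1
    have h4 : logHeight₁ (xs (W := fun i => E (cl i)) (y j) a) = hx (y j a) := rfl
    rw [h4]
    rw [div_le_iff₀ hδ] at h2
    linarith
  by_cases hTF : TFamR (M := fun c => ℕ → (E c).Point) (fun c => acS (ac c))
      (fun c => slowP U N (H c)) (fun i : {i // i ∉ S} => cl i.1) (fun i k => y k i.1)
  · -- free
    obtain ⟨r, ⟨e⟩⟩ : ∃ r, Nonempty (Fin r ≃ {i // i ∉ S}) :=
      ⟨_, ⟨(Fintype.equivFin {i // i ∉ S}).symm⟩⟩
    have hone : ∀ j : Fin r, cmbR (M := fun c => ℕ → (E c).Point) (fun c => acS (ac c)) cl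
        (fun i k => y k i) (cl (e j).1) (fun i => if i = (e j).1 then 1 else 0) =
        fun k => y k (e j).1 := fun j =>
      cmbR_one (M := fun c => ℕ → (E c).Point) (fun c => acS (ac c)) cl (fun i k => y k i) (e j).1
    have h1 := hPR K ι E hE hNI R ac hac σ cl hall H c₀ hH U y hg.ud r (fun j => cl (e j).1)
      (fun j i => if i = (e j).1 then 1 else 0) (by
        have h2 := tfR_comp hTF e e.injective
        have h3 : (fun j : Fin r => cmbR (M := fun c => ℕ → (E c).Point) (fun c => acS (ac c)) cl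
            (fun i k => y k i) (cl (e j).1) (fun i => if i = (e j).1 then 1 else 0)) =
            fun j : Fin r => (fun k => y k (e j).1) := funext hone
        rw [h3]
        exact h2)
    refine coreG (W := fun i => E (cl i)) hP hEM (fun i => hE _) (fun i => hH (cl i)) hQ hg S hS ?_
    intro D
    obtain ⟨η, hη, h2⟩ := h1 D
    refine ⟨η, hη, ?_⟩
    filter_upwards [h2] with k hk hlo
    refine hk ?_
    have h3 := Pool.Agent.Helper19.TG.lo_pull (σ := {i // i ∉ S}) (fun j : Fin r => e j)
      e.injective (fun i _ => ⟨e.symm i, e.apply_symm_apply i⟩) hlo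
    have h4 : (fun j : Fin r => xc (cmbR (M := fun c => ℕ → (E c).Point) (fun c => acS (ac c)) cl
        (fun i k => y k i) (cl (e j).1) (fun i => if i = (e j).1 then 1 else 0) k)) =
        fun j : Fin r => xs (W := fun i => E (cl i)) (y k) (e j).1 := by
      funext j
      rw [hone j]
      rfl
    rw [h4]
    exact h3
  · -- a new slow coordinate
    have hTF' : ∃ (c : ι) (n : {i // i ∉ S} → R c), (∃ j, cl j.1 = c ∧ n j ≠ 0) ∧
        cmbR (M := fun c => ℕ → (E c).Point) (fun c => acS (ac c))
          (fun i : {i // i ∉ S} => cl i.1) (fun i k => y k i.1) c n ∈ slowP U N (H c) := by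
      by_contra hcon
      push Not at hcon
      exact hTF fun c n hn => hcon c n hn
    obtain ⟨c, n, ⟨b, hbc, hnb⟩, hmem⟩ := hTF'
    obtain ⟨b, hbS⟩ := b
    dsimp only at hbc
    subst hbc
    rw [cmbR_extend (M := fun c => ℕ → (E c).Point) (ac := fun c => acS (ac c)) (cl := cl)
      (fun i : {i // i ∉ S} => (i : σ)) Subtype.val_injective (fun i k => y k i) (cl b) n] at hmem
    set n' : σ → R (cl b) := fun j => ∑ i : {i // i ∉ S}, if (i : σ) = j then n i else 0 with hn'
    have hn'b : n' b ≠ 0 := by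
      rw [hn']
      dsimp only
      rw [Finset.sum_eq_single (⟨b, hbS⟩ : {i // i ∉ S})]
      · rw [if_pos rfl]
        exact hnb
      · intro i _ hi
        rw [if_neg]
        intro h
        exact hi (Subtype.ext h)
      · intro h
        exact absurd (Finset.mem_univ _) h
    have hn'S : ∀ j ∈ S, n' j = 0 := by
      intro j hj
      rw [hn']
      dsimp only
      refine Finset.sum_eq_zero fun i _ => ?_
      rw [if_neg]
      intro h
      exact i.2 (h ▸ hj)
    obtain ⟨μ, hμ, hμ1, hμ2⟩ := exists_move' hT hG hX hMT hMG hHT hE hH R ac hac cl b n' hn'b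
    obtain ⟨y', hg', hy'⟩ := Move.good hQ hμ hg
    obtain ⟨C, hC, hdn⟩ := hμ.dn
    have hsl : ∀ i : σ, (∀ η : ℝ, 0 < η → ∀ᶠ k in (U : Filter ℕ), H (cl i) (μ (y k) i) ≤ η * N k) →
        i ∈ sls (W := fun i => E (cl i)) U (fun i => H (cl i)) y' := by
      intro i hi
      rw [mem_sls]
      intro η hη
      filter_upwards [hi (η / C) (by positivity), hy'] with k h1 h2
      rw [h2]
      have h3 := hdn (y k)
      have h4 : η / C * N k ≤ η / C * (C * nrs (W := fun i => E (cl i)) (fun i => H (cl i))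
          (μ (y k))) := mul_le_mul_of_nonneg_left h3 (by positivity)
      have h5 : η / C * (C * nrs (W := fun i => E (cl i)) (fun i => H (cl i)) (μ (y k))) =
          η * nrs (W := fun i => E (cl i)) (fun i => H (cl i)) (μ (y k)) := by
        field_simp
      linarith
    have hsub : insert b S ⊆ sls (W := fun i => E (cl i)) U (fun i => H (cl i)) y' := by
      intro i hi
      refine hsl i ?_
      rcases Finset.mem_insert.1 hi with h | h
      · subst h
        intro η hη
        filter_upwards [hmem η hη] with k hk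
        rw [hμ2]
        have h1 := Pool.Agent.Helper19.TG.cmbR_seq (M := fun c => (E c).Point)
          (fun c => acK (ac c)) cl (fun i k => y k i) (cl i) n' k
        have h2 : cmbR (M := fun c => (E c).Point) (fun c => acK (ac c)) cl (y k) (cl i) n' =
            cmbR (M := fun c => ℕ → (E c).Point) (fun c => acS (ac c)) cl
              (fun i k => y k i) (cl i) n' k := h1.symm
        rw [h2]
        exact hk
      · intro η hη
        have hib : i ≠ b := fun h' => hbS (h' ▸ h)
        filter_upwards [mem_sls.1 h η hη] with k hk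
        rw [hμ1 (y k) i hib (hn'S i h)]
        exact hk
    have hcard := Finset.card_le_card hsub
    rw [Finset.card_insert_of_notMem hbS] at hcard
    have hcs := Finset.card_le_univ (sls (W := fun i => E (cl i)) U (fun i => H (cl i)) y')
    refine ih _ ?_ y' hg' rfl
    rw [← hm]
    omega

/-- finitely many classes -/
theorem tgw_fin [Fintype ι] [DecidableEq ι]
    (hE : ∀ c, (E c).IsElliptic) (hNI : ∀ c c', c ≠ c' → NonIsog (E c) (E c'))
    (hR : ∀ c, HasR (E c)) (cl : σ → ι) : MAINW K σ (fun i => E (cl i)) := by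
  by_contra hno
  have hcan' : ∀ c, ∃ (H : (E c).Point → ℝ) (c₀ : ℝ), CanH (E c) H c₀ := fun c => by
    have := hE c
    exact Pool.Agent.Helper29.BL.th_can K (E c)
  choose H cc hH0 using hcan'
  have hcn : ∀ c, 0 ≤ cc c := fun c => (abs_nonneg _).trans ((hH0 c).near 0)
  have hc0 : 0 ≤ ∑ c, cc c := Finset.sum_nonneg fun c _ => hcn c
  have hH : ∀ c, CanH (E c) (H c) (∑ c, cc c) := fun c =>
    ⟨(hH0 c).quad, fun P => ((hH0 c).near P).trans
      (Finset.single_le_sum (fun j _ => hcn j) (Finset.mem_univ c))⟩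
  choose R ac hac hall using hR
  obtain ⟨U, y, hg⟩ := exists_good (W := fun i => E (cl i)) (fun i => hH (cl i)) hc0 hno
  exact no_goodW th_PRMW Pool.Agent.Helper19.PM.th_P1S Pool.Agent.Helper19.PM.th_EMS
    Pool.Agent.Helper3.TG.Main.th_TRF Pool.Agent.Helper3.TG.Main.th_GENP
    Pool.Agent.Helper3.TG.Main.th_THX Pool.Agent.Helper68.TG.M.th_MTRF
    Pool.Agent.Helper68.TG.M.th_MGENP Pool.Agent.Helper92.TG.MainH.th_HTR hE hNI hH R
    (fun c F => ac c F) (fun c => hac c) cl (fun i k _ _ => hall (cl i)) U _ y hg rfl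

/-- **S_TGW** -/
theorem th_TGW : S_TGW := by
  intro K _ _ _ ι _ E hE hNI hR σ _ _ cl
  exact tgw_fin (ι := {c // c ∈ Finset.univ.image cl}) (E := fun c => E c.1)
    (fun c => hE c.1) (fun c c' h => hNI c.1 c'.1 fun h' => h (Subtype.ext h'))
    (fun c => hR c.1) (fun i => ⟨cl i, Finset.mem_image_of_mem cl (Finset.mem_univ i)⟩)

end

end Pool.Agent.Helper60.TGX
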